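import Pool.Agent.H37.WR.Forest

/-!
# The assembled tree
-/

namespace Pool.Agent.H37.WR

open Polynomial Finset

/-- Distance on the path. -/
def dd (i j : ℕ) : ℕ := (i - j) + (j - i)

theorem sum_sq (B : ℕ → ℤ[X]) (k : ℕ) :
    ∑ j ∈ range (k + 1), (B j ^ 2 + 2 * ∑ i ∈ range j, X ^ (j - i) * (B i * B j)) =
      ∑ i ∈ range (k + 1), ∑ j ∈ range (k + 1), X ^ (dd i j) * (B i * B j) := by
  induction k with
  | zero => simp [dd]; ring
  | succ k ih =>
    rw [sum_range_succ, ih, sum_range_succ _ (k + 1), sum_range_succ _ (k + 1)]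
    have e1 : ∀ i ∈ range (k + 1), ∑ j ∈ range (k + 1 + 1), X ^ (dd i j) * (B i * B j) =
        ∑ j ∈ range (k + 1), X ^ (dd i j) * (B i * B j) + X ^ (k + 1 - i) * (B i * B (k + 1)) := by
      intro i hi
      rw [mem_range] at hi
      rw [sum_range_succ]
      congr 3
      unfold dd
      omega
    rw [sum_congr rfl e1, sum_add_distrib]
    have e2 : ∑ j ∈ range (k + 1), X ^ (dd (k + 1) j) * (B (k + 1) * B j) =
        ∑ i ∈ range (k + 1), X ^ (k + 1 - i) * (B i * B (k + 1)) := by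
      refine sum_congr rfl fun i hi => ?_
      rw [mem_range] at hi
      have : dd (k + 1) i = k + 1 - i := by unfold dd; omega
      rw [this]
      ring
    rw [e2]
    simp [dd]
    ring

/-- The polynomial of the forest at position `j` of the path. -/
noncomputable def Gj (g : ℕ) (Γ : ℤ[X]) (j : ℕ) : ℤ[X] := 1 + if j = g then X * Γ else 0

noncomputable def Mj (g : ℕ) (Γ : ℤ[X]) (j : ℕ) : ℤ[X] :=
  ∑ i ∈ range (2 * g + 1), X ^ (dd i j) * Gj g Γ i

noncomputable def FF (g : ℕ) (Γ : ℤ[X]) : ℤ[X] :=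
  ∑ i ∈ range (2 * g + 1), ∑ j ∈ range (2 * g + 1), X ^ (dd i j) * (Gj g Γ i * Gj g Γ j)

noncomputable def QQ (g : ℕ) (b : ℕ → ℤ) : ℤ[X] :=
  ∑ i ∈ range (2 * g + 1), ∑ j ∈ range (2 * g + 1), X ^ (dd i j) * (C (b i) * C (b j))

theorem alt_sum (g : ℕ) : ∑ i ∈ range (2 * g + 1), (-1 : ℤ) ^ i = 1 := by
  induction g with
  | zero => simp
  | succ g ih =>
    have e : 2 * (g + 1) + 1 = 2 * g + 1 + 1 + 1 := by ring
    have e2 : (-1 : ℤ) ^ (2 * g + 1) = -1 := Odd.neg_one_pow ⟨g, rfl⟩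
    have e3 : (-1 : ℤ) ^ (2 * g + 1 + 1) = 1 := Even.neg_one_pow ⟨g + 1, by ring⟩
    rw [e, sum_range_succ, sum_range_succ, ih, e2, e3]
    norm_num

theorem assemble (g : ℕ) (Γ σg : ℤ[X]) (hF : Fo Γ σg) (b : ℕ → ℕ) :
    ∃ γ σ : ℤ[X], Fo γ σ ∧
      (1 + X * γ).eval 1 = (2 * g + 1) + Γ.eval 1 + ∑ j ∈ range (2 * g + 1), (b j : ℤ) ∧
      (1 + X * γ).eval (-1) = 1 - (-1) ^ g * Γ.eval (-1) -
        ∑ j ∈ range (2 * g + 1), (-1) ^ j * (b j : ℤ) ∧
      (1 + X * γ) ^ 2 + (1 - X ^ 2) * σ = FF g Γ +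
        ∑ j ∈ range (2 * g + 1), C (b j : ℤ) * (2 * (X * Mj g Γ j)) +
        X ^ 2 * QQ g (fun j => (b j : ℤ)) +
        (1 - X ^ 2) * C (∑ j ∈ range (2 * g + 1), (b j : ℤ)) + (1 - X ^ 2) * σg := by
  have hf : ∀ i, Fo ((b i : ℤ[X]) + if i = g then Γ else 0)
      ((b i : ℤ[X]) + if i = g then σg else 0) := by
    intro i
    by_cases hi : i = g
    · simp only [hi, if_true]
      exact (Fo.leaves _).add hF
    · simp only [hi, if_false, add_zero]
      exact Fo.leaves _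
  obtain ⟨γ, σ, h1, h2, h3⟩ := spine _ _ hf (2 * g)
  have hB : ∀ i, 1 + X * ((b i : ℤ[X]) + if i = g then Γ else 0) = Gj g Γ i + X * C (b i : ℤ) := by
    intro i
    unfold Gj
    split
    · simp
      ring
    · simp
  simp only [hB] at h2 h3
  have hGe : ∀ (i : ℕ) (x : ℤ), (Gj g Γ i).eval x = 1 + if i = g then x * Γ.eval x else 0 := by
    intro i x
    unfold Gj
    split <;> simp
  refine ⟨γ, σ, h1, ?_, ?_, ?_⟩
  · rw [h2, eval_finsetSum]
    simp only [eval_mul, eval_pow, eval_X, one_pow, one_mul, eval_add, hGe, eval_C]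
    rw [sum_add_distrib, sum_add_distrib, sum_ite_eq' (range (2 * g + 1)) g,
      if_pos (by simp; omega)]
    simp
  · rw [h2, eval_finsetSum]
    simp only [eval_mul, eval_pow, eval_X, eval_add, hGe, eval_C]
    have e1 : ∀ i ∈ range (2 * g + 1), (-1 : ℤ) ^ (2 * g - i) *
        ((1 + if i = g then -1 * Γ.eval (-1) else 0) + -1 * (b i : ℤ)) =
        (-1 : ℤ) ^ i + (if i = g then -((-1 : ℤ) ^ i * Γ.eval (-1)) else 0) -
          (-1 : ℤ) ^ i * (b i : ℤ) := by
      intro i hi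
      rw [mem_range] at hi
      have e2 : (-1 : ℤ) ^ (2 * g - i) = (-1) ^ i := by
        have h4 : (-1 : ℤ) ^ (2 * g - i) * (-1) ^ i = 1 := by
          rw [← pow_add, show 2 * g - i + i = 2 * g by omega, pow_mul]
          norm_num
        have h5 : (-1 : ℤ) ^ i * (-1) ^ i = 1 := by
          rw [← mul_pow]
          norm_num
        have h6 : (-1 : ℤ) ^ i ≠ 0 := by positivity
        exact mul_right_cancel₀ h6 (h4.trans h5.symm)
      rw [e2]
      split <;> ring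
    rw [sum_congr rfl e1, sum_sub_distrib, sum_add_distrib, alt_sum,
      sum_ite_eq' (range (2 * g + 1)) g, if_pos (by simp; omega)]
    ring
  · rw [h3, sum_sq]
    have e1 : ∀ i j, X ^ (dd i j) * ((Gj g Γ i + X * C (b i : ℤ)) * (Gj g Γ j + X * C (b j : ℤ))) =
        X ^ (dd i j) * (Gj g Γ i * Gj g Γ j) + X ^ 2 * (X ^ (dd i j) * (C (b i : ℤ) * C (b j : ℤ))) +
        C (b j : ℤ) * (X * (X ^ (dd i j) * Gj g Γ i)) +
        C (b i : ℤ) * (X * (X ^ (dd i j) * Gj g Γ j)) := by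
      intro i j
      ring
    simp only [e1, sum_add_distrib]
    have e2 : ∑ i ∈ range (2 * g + 1), ∑ j ∈ range (2 * g + 1),
        C (b j : ℤ) * (X * (X ^ (dd i j) * Gj g Γ i)) =
        ∑ j ∈ range (2 * g + 1), C (b j : ℤ) * (X * Mj g Γ j) := by
      rw [sum_comm]
      refine sum_congr rfl fun j _ => ?_
      unfold Mj
      rw [mul_sum, mul_sum]
    have e3 : ∑ i ∈ range (2 * g + 1), ∑ j ∈ range (2 * g + 1),
        C (b i : ℤ) * (X * (X ^ (dd i j) * Gj g Γ j)) =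
        ∑ j ∈ range (2 * g + 1), C (b j : ℤ) * (X * Mj g Γ j) := by
      refine sum_congr rfl fun i _ => ?_
      unfold Mj
      rw [mul_sum, mul_sum]
      refine sum_congr rfl fun j _ => ?_
      have : dd j i = dd i j := by unfold dd; omega
      rw [this]
    have e4 : ∑ j ∈ range (2 * g + 1), C (b j : ℤ) * (2 * (X * Mj g Γ j)) =
        ∑ j ∈ range (2 * g + 1), C (b j : ℤ) * (X * Mj g Γ j) +
        ∑ j ∈ range (2 * g + 1), C (b j : ℤ) * (X * Mj g Γ j) := by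
      rw [← sum_add_distrib]
      exact sum_congr rfl fun j _ => by ring
    have e5 : ∑ i ∈ range (2 * g + 1), ∑ j ∈ range (2 * g + 1),
        X ^ 2 * (X ^ (dd i j) * (C (b i : ℤ) * C (b j : ℤ))) = X ^ 2 * QQ g (fun j => (b j : ℤ)) := by
      unfold QQ
      simp only [mul_sum]
    have e6 : ∑ j ∈ range (2 * g + 1), (if j = g then σg else 0) = σg := by
      rw [sum_ite_eq' (range (2 * g + 1)) g, if_pos (by simp; omega)]
    have e7 : ∑ j ∈ range (2 * g + 1), ((b j : ℕ) : ℤ[X]) =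
        C (∑ j ∈ range (2 * g + 1), (b j : ℤ)) := by
      rw [map_sum]
      simp
    rw [e2, e3, e4, e5, e6, e7]
    unfold FF
    ring

theorem coeff_QQ (g : ℕ) (b : ℕ → ℤ) (hb : ∀ j, 2 * g < j → b j = 0) (l : ℕ) (hl : 1 ≤ l) :
    (QQ g b).coeff l = 2 * ∑ j ∈ range (2 * g + 1), b j * b (j + l) := by
  unfold QQ
  simp only [finsetSum_coeff, ← C_mul, coeff_mul_C, coeff_X_pow]
  have e1 : ∀ i j, (if l = dd i j then (1 : ℤ) else 0) * (b i * b j) =
      b i * (if j = i + l then b j else 0) + b j * (if i = j + l then b i else 0) := by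
    intro i j
    unfold dd
    by_cases h1 : j = i + l
    · rw [if_pos (by omega), if_pos h1, if_neg (by omega)]
      ring
    · by_cases h2 : i = j + l
      · rw [if_pos (by omega), if_neg h1, if_pos h2]
        ring
      · rw [if_neg (by omega), if_neg h1, if_neg h2]
        ring
  simp only [e1, sum_add_distrib]
  have e2 : ∀ i, ∑ j ∈ range (2 * g + 1), b i * (if j = i + l then b j else 0) =
      b i * b (i + l) := by
    intro i
    rw [← mul_sum, sum_ite_eq' (range (2 * g + 1)) (i + l) b]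
    split
    · rfl
    · next h =>
      rw [mem_range] at h
      rw [hb (i + l) (by omega)]
  have e3 : ∑ i ∈ range (2 * g + 1), ∑ j ∈ range (2 * g + 1),
      b j * (if i = j + l then b i else 0) = ∑ j ∈ range (2 * g + 1), b j * b (j + l) := by
    rw [sum_comm]
    exact sum_congr rfl fun j _ => e2 j
  rw [e3, sum_congr rfl fun i _ => e2 i]
  ring


/-! ### Nonnegativity and degrees -/

theorem nn_sum {ι : Type*} (s : Finset ι) (f : ι → ℤ[X]) (h : ∀ i ∈ s, ∀ k, 0 ≤ (f i).coeff k)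
    (k : ℕ) : 0 ≤ (∑ i ∈ s, f i).coeff k := by
  rw [finsetSum_coeff]
  exact sum_nonneg fun i hi => h i hi k

theorem nn_mul {p q : ℤ[X]} (hp : ∀ k, 0 ≤ p.coeff k) (hq : ∀ k, 0 ≤ q.coeff k) (k : ℕ) :
    0 ≤ (p * q).coeff k := by
  rw [coeff_mul]
  exact sum_nonneg fun i _ => mul_nonneg (hp _) (hq _)

theorem nn_X_pow (d k : ℕ) : 0 ≤ ((X : ℤ[X]) ^ d).coeff k := by
  rw [coeff_X_pow]
  split <;> simp

theorem nn_Gj (g : ℕ) (Γ : ℤ[X]) (h : ∀ k, 0 ≤ Γ.coeff k) (j k : ℕ) : 0 ≤ (Gj g Γ j).coeff k := by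
  unfold Gj
  have h1 : 0 ≤ (1 : ℤ[X]).coeff k := by
    have := nn_X_pow 0 k
    simpa using this
  split
  · have h2 : 0 ≤ ((X : ℤ[X]) * Γ).coeff k := by
      have := nn_mul (nn_X_pow 1) h k
      simpa using this
    rw [coeff_add]
    linarith
  · simpa using h1

theorem nn_Mj (g : ℕ) (Γ : ℤ[X]) (h : ∀ k, 0 ≤ Γ.coeff k) (j k : ℕ) : 0 ≤ (Mj g Γ j).coeff k :=
  nn_sum _ _ (fun _ _ => nn_mul (nn_X_pow _) (nn_Gj g Γ h _)) k

theorem nn_FF (g : ℕ) (Γ : ℤ[X]) (h : ∀ k, 0 ≤ Γ.coeff k) (k : ℕ) : 0 ≤ (FF g Γ).coeff k :=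
  nn_sum _ _ (fun _ _ => nn_sum _ _ (fun _ _ => nn_mul (nn_X_pow _)
    (nn_mul (nn_Gj g Γ h _) (nn_Gj g Γ h _)))) k

theorem eval_Gj (g : ℕ) (Γ : ℤ[X]) (i : ℕ) :
    (Gj g Γ i).eval 1 = 1 + if i = g then Γ.eval 1 else 0 := by
  unfold Gj
  split <;> simp

theorem eval_sum_Gj (g : ℕ) (Γ : ℤ[X]) :
    ∑ i ∈ range (2 * g + 1), (Gj g Γ i).eval 1 = (2 * g + 1) + Γ.eval 1 := by
  simp only [eval_Gj]
  rw [sum_add_distrib, sum_ite_eq' (range (2 * g + 1)) g, if_pos (by simp; omega)]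
  simp

theorem eval_Mj (g : ℕ) (Γ : ℤ[X]) (j : ℕ) : (Mj g Γ j).eval 1 = (2 * g + 1) + Γ.eval 1 := by
  unfold Mj
  rw [eval_finsetSum]
  simp only [eval_mul, eval_pow, eval_X, one_pow, one_mul]
  exact eval_sum_Gj g Γ

theorem eval_FF (g : ℕ) (Γ : ℤ[X]) : (FF g Γ).eval 1 = ((2 * g + 1) + Γ.eval 1) ^ 2 := by
  unfold FF
  rw [eval_finsetSum]
  simp only [eval_finsetSum, eval_mul, eval_pow, eval_X, one_pow, one_mul]
  rw [← sum_mul_sum, eval_sum_Gj]
  ring

theorem deg_XG (g : ℕ) (Γ : ℤ[X]) (h : Γ.natDegree ≤ g) (i j : ℕ) (hi : i < 2 * g + 1)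
    (hj : j < 2 * g + 1) : (X ^ (dd i j) * Gj g Γ i).natDegree ≤ 2 * g + 1 := by
  refine natDegree_mul_le.trans ?_
  rw [natDegree_X_pow]
  unfold Gj
  split
  · have h1 : (1 + X * Γ).natDegree ≤ g + 1 := by
      refine (natDegree_add_le _ _).trans ?_
      have : (X * Γ).natDegree ≤ 1 + g :=
        natDegree_mul_le.trans (add_le_add natDegree_X_le h)
      simp
      omega
    unfold dd
    omega
  · simp
    unfold dd
    omega

theorem deg_Mj (g : ℕ) (Γ : ℤ[X]) (h : Γ.natDegree ≤ g) (j : ℕ) (hj : j < 2 * g + 1) :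
    (Mj g Γ j).natDegree ≤ 2 * g + 1 :=
  natDegree_sum_le_of_forall_le _ _ fun i hi => deg_XG g Γ h i j (by simpa using hi) hj

theorem deg_FF (g : ℕ) (Γ : ℤ[X]) (h : Γ.natDegree ≤ g) (hg : 1 ≤ g) :
    (FF g Γ).natDegree ≤ 2 * g + 2 := by
  refine natDegree_sum_le_of_forall_le _ _ fun i hi => natDegree_sum_le_of_forall_le _ _
    fun j hj => ?_
  rw [mem_range] at hi hj
  by_cases hjg : j = g
  · have h1 : (Gj g Γ j).natDegree ≤ g + 1 := by
      unfold Gj
      rw [if_pos hjg]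
      refine (natDegree_add_le _ _).trans ?_
      have : (X * Γ).natDegree ≤ 1 + g :=
        natDegree_mul_le.trans (add_le_add natDegree_X_le h)
      simp
      omega
    by_cases hig : i = g
    · have h2 : (Gj g Γ i).natDegree ≤ g + 1 := by
        rw [hig]
        rw [hjg] at h1
        exact h1
      have : dd i j = 0 := by unfold dd; omega
      rw [this, pow_zero, one_mul]
      exact natDegree_mul_le.trans (by omega)
    · have h2 : Gj g Γ i = 1 := by
        unfold Gj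
        rw [if_neg hig, add_zero]
      rw [h2, one_mul]
      refine natDegree_mul_le.trans ?_
      rw [natDegree_X_pow]
      unfold dd
      omega
  · have h2 : Gj g Γ j = 1 := by
      unfold Gj
      rw [if_neg hjg, add_zero]
    rw [h2, mul_one]
    exact (deg_XG g Γ h i j hi hj).trans (by omega)

end Pool.Agent.H37.WR
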