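import Pool.Agent.H37.WR.Forest

/-!
# Brooms
-/

namespace Pool.Agent.H37.WR

open Polynomial

theorem deg_one_sub : (1 - X ^ 2 : ℤ[X]).natDegree ≤ 2 := by
  compute_degree

/-- Simple brooms. -/
theorem chainK (i : ℕ) : ∃ P α β : ℤ[X], P.natDegree ≤ i ∧ α.natDegree ≤ 2 * i + 4 ∧
    β.natDegree ≤ 2 * i + 4 ∧ ∀ m : ℕ, ∃ σ : ℤ[X], Fo (P + (m : ℤ[X]) * X ^ (i + 1)) σ ∧
      (1 - X ^ 2) * σ = α + (m : ℤ[X]) * β + (m : ℤ[X]) ^ 2 * (X ^ 2 - X ^ (2 * i + 4)) := by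
  induction i with
  | zero =>
    refine ⟨1, 1 - X ^ 2, (1 - X ^ 2) * (2 * X + 1), ?_, ?_, ?_, fun m => ?_⟩
    · compute_degree <;> norm_num
    · compute_degree <;> norm_num
    · compute_degree <;> norm_num
    · exact ⟨_, (Fo.leaves m).wrap.of_eq (by ring) rfl, by ring⟩
  | succ i ih =>
    obtain ⟨P, α, β, hP, hα, hβ, h⟩ := ih
    have hP' : (1 + X * P).natDegree ≤ i + 1 := by
      refine natDegree_add_le_of_le (by simp) ?_ |>.trans (max_le (by omega : 0 ≤ i + 1) le_rfl)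
      refine (natDegree_mul_le_of_le natDegree_X_le hP).trans (by omega)
    refine ⟨1 + X * P, α + (1 - X ^ 2) * (1 + X * P) ^ 2,
      β + 2 * (1 - X ^ 2) * (1 + X * P) * X ^ (i + 2), hP', ?_, ?_, fun m => ?_⟩
    · refine natDegree_add_le_of_degree_le (by omega) ?_
      refine (natDegree_mul_le_of_le deg_one_sub (natDegree_pow_le_of_le 2 hP')).trans (by omega)
    · refine natDegree_add_le_of_degree_le (by omega) ?_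
      have h2 : (2 : ℤ[X]).natDegree ≤ 0 := by simp
      refine (natDegree_mul_le_of_le (natDegree_mul_le_of_le (natDegree_mul_le_of_le
        h2 deg_one_sub) hP') (natDegree_X_pow_le (i + 2))).trans (by omega)
    · obtain ⟨σ, h1, h2⟩ := h m
      refine ⟨_, h1.wrap.of_eq (by ring) rfl, ?_⟩
      rw [mul_add, h2]
      ring

/-- Nested brooms. -/
theorem chainN (i : ℕ) : ∃ P α β δ : ℤ[X], P.natDegree ≤ i + 1 ∧ α.natDegree ≤ 2 * i + 6 ∧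
    β.natDegree ≤ 2 * i + 6 ∧ δ.natDegree ≤ 2 * i + 6 ∧
    ∀ m v : ℕ, ∃ σ : ℤ[X], Fo (P + (m : ℤ[X]) * X ^ (i + 1) + (v : ℤ[X]) * X ^ (i + 2)) σ ∧
      (1 - X ^ 2) * σ = α + (m : ℤ[X]) * β + (v : ℤ[X]) * δ + (m : ℤ[X]) ^ 2 * (X ^ 2 - X ^ (2 * i + 4)) +
        2 * (m : ℤ[X]) * (v : ℤ[X]) * (X ^ 3 - X ^ (2 * i + 5)) + (v : ℤ[X]) ^ 2 * (X ^ 2 - X ^ (2 * i + 6)) := by
  induction i with
  | zero =>
    refine ⟨1 + X, (1 - X ^ 2) * ((1 + X) ^ 2 + 1), (1 - X ^ 2) * (2 * (1 + X) * X + 1),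
      (1 - X ^ 2) * (2 * (1 + X) * X ^ 2 + 2 * X + 1), ?_, ?_, ?_, ?_, fun m v => ?_⟩
    · compute_degree <;> norm_num
    · compute_degree <;> norm_num
    · compute_degree <;> norm_num
    · compute_degree <;> norm_num
    · exact ⟨_, ((Fo.leaves m).add (Fo.leaves v).wrap).wrap.of_eq (by ring) rfl, by ring⟩
  | succ i ih =>
    obtain ⟨P, α, β, δ, hP, hα, hβ, hδ, h⟩ := ih
    have hP' : (1 + X * P).natDegree ≤ i + 2 := by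
      refine natDegree_add_le_of_le (by simp) ?_ |>.trans (max_le (by omega : 0 ≤ i + 2) le_rfl)
      refine (natDegree_mul_le_of_le natDegree_X_le hP).trans (by omega)
    have h2 : (2 : ℤ[X]).natDegree ≤ 0 := by simp
    refine ⟨1 + X * P, α + (1 - X ^ 2) * (1 + X * P) ^ 2,
      β + 2 * (1 - X ^ 2) * (1 + X * P) * X ^ (i + 2),
      δ + 2 * (1 - X ^ 2) * (1 + X * P) * X ^ (i + 3), hP', ?_, ?_, ?_, fun m v => ?_⟩
    · refine natDegree_add_le_of_degree_le (by omega) ?_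
      refine (natDegree_mul_le_of_le deg_one_sub (natDegree_pow_le_of_le 2 hP')).trans (by omega)
    · refine natDegree_add_le_of_degree_le (by omega) ?_
      refine (natDegree_mul_le_of_le (natDegree_mul_le_of_le (natDegree_mul_le_of_le
        h2 deg_one_sub) hP') (natDegree_X_pow_le (i + 2))).trans (by omega)
    · refine natDegree_add_le_of_degree_le (by omega) ?_
      refine (natDegree_mul_le_of_le (natDegree_mul_le_of_le (natDegree_mul_le_of_le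
        h2 deg_one_sub) hP') (natDegree_X_pow_le (i + 3))).trans (by omega)
    · obtain ⟨σ, h1, h2⟩ := h m v
      refine ⟨_, h1.wrap.of_eq (by ring) rfl, ?_⟩
      rw [mul_add, h2]
      ring

/-- Eight simple brooms: four squares. -/
theorem evenG (i : ℕ) : ∃ γ₀ γ₁ z₀ z₁ : ℤ[X], γ₀.natDegree ≤ i + 1 ∧ γ₁.natDegree ≤ i + 1 ∧
    z₀.natDegree ≤ 2 * i + 4 ∧ z₁.natDegree ≤ 2 * i + 4 ∧
    ∀ B u : ℕ, u ≤ B ^ 2 → ∃ σ : ℤ[X], Fo (γ₀ + (B : ℤ[X]) * γ₁) σ ∧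
      (1 - X ^ 2) * σ = z₀ + (B : ℤ[X]) * z₁ +
        (8 * (B : ℤ[X]) ^ 2 + 2 * (u : ℤ[X])) * (X ^ 2 - X ^ (2 * i + 4)) := by
  obtain ⟨P, α, β, hP, hα, hβ, h⟩ := chainK i
  have h8 : (8 : ℤ[X]).natDegree ≤ 0 := by simp
  refine ⟨8 * P, 8 * X ^ (i + 1), 8 * α, 8 * β, ?_, ?_, ?_, ?_, fun B u hu => ?_⟩
  · exact (natDegree_mul_le_of_le h8 hP).trans (by omega)
  · exact (natDegree_mul_le_of_le h8 (natDegree_X_pow_le _)).trans (by omega)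
  · exact (natDegree_mul_le_of_le h8 hα).trans (by omega)
  · exact (natDegree_mul_le_of_le h8 hβ).trans (by omega)
  · obtain ⟨a, b, c, d, habcd⟩ := Nat.sum_four_squares u
    have ha : a ≤ B := by nlinarith
    have hb : b ≤ B := by nlinarith
    have hc : c ≤ B := by nlinarith
    have hd : d ≤ B := by nlinarith
    obtain ⟨σ1, f1, g1⟩ := h (B + a)
    obtain ⟨σ2, f2, g2⟩ := h (B - a)
    obtain ⟨σ3, f3, g3⟩ := h (B + b)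
    obtain ⟨σ4, f4, g4⟩ := h (B - b)
    obtain ⟨σ5, f5, g5⟩ := h (B + c)
    obtain ⟨σ6, f6, g6⟩ := h (B - c)
    obtain ⟨σ7, f7, g7⟩ := h (B + d)
    obtain ⟨σ8, f8, g8⟩ := h (B - d)
    push_cast [Nat.cast_sub ha, Nat.cast_sub hb, Nat.cast_sub hc, Nat.cast_sub hd] at *
    refine ⟨_, (((f1.add f2).add (f3.add f4)).add ((f5.add f6).add (f7.add f8))).of_eq
      (by ring) rfl, ?_⟩
    have e : (u : ℤ[X]) = (a : ℤ[X]) ^ 2 + (b : ℤ[X]) ^ 2 + (c : ℤ[X]) ^ 2 + (d : ℤ[X]) ^ 2 := by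
      rw [← habcd]
      push_cast
      ring
    simp only [mul_add (1 - X ^ 2 : ℤ[X])]
    rw [g1, g2, g3, g4, g5, g6, g7, g8, e]
    ring

/-- Four nested brooms. -/
theorem oddG (i : ℕ) : ∃ γ₀ γ₁ z₀ z₁ z₂ : ℤ[X], γ₀.natDegree ≤ i + 2 ∧ γ₁.natDegree ≤ i + 2 ∧
    z₀.natDegree ≤ 2 * i + 6 ∧ z₁.natDegree ≤ 2 * i + 6 ∧ z₂.natDegree ≤ 2 * i + 6 ∧
    ∀ s m m' : ℕ, m ≤ s → m' ≤ s → ∃ σ : ℤ[X], Fo (γ₀ + (s : ℤ[X]) * γ₁) σ ∧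
      (1 - X ^ 2) * σ = z₀ + (s : ℤ[X]) * z₁ + (s : ℤ[X]) ^ 2 * z₂ +
        ((m : ℤ[X]) ^ 2 + ((s : ℤ[X]) - (m : ℤ[X])) ^ 2 + (m' : ℤ[X]) ^ 2 +
          ((s : ℤ[X]) - (m' : ℤ[X])) ^ 2) *
          (X ^ 2 - X ^ (2 * i + 4)) +
        2 * ((m : ℤ[X]) * (s : ℤ[X]) + (m' : ℤ[X])) * (X ^ 3 - X ^ (2 * i + 5)) := by
  obtain ⟨P, α, β, δ, hP, hα, hβ, hδ, h⟩ := chainN i
  have h4 : (4 : ℤ[X]).natDegree ≤ 0 := by simp
  have h2 : (2 : ℤ[X]).natDegree ≤ 0 := by simp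
  have hx : (X ^ 2 - X ^ (2 * i + 6) : ℤ[X]).natDegree ≤ 2 * i + 6 :=
    natDegree_sub_le_of_le (natDegree_X_pow_le _) (natDegree_X_pow_le _) |>.trans
      (max_le (by omega) le_rfl)
  refine ⟨4 * P + X ^ (i + 2), 2 * X ^ (i + 1) + X ^ (i + 2),
    4 * α + δ + (X ^ 2 - X ^ (2 * i + 6)), 2 * β + δ, X ^ 2 - X ^ (2 * i + 6),
    ?_, ?_, ?_, ?_, hx, fun s m m' hm hm' => ?_⟩
  · refine natDegree_add_le_of_degree_le ?_ (natDegree_X_pow_le _)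
    exact (natDegree_mul_le_of_le h4 hP).trans (by omega)
  · refine natDegree_add_le_of_degree_le ?_ (natDegree_X_pow_le _)
    exact (natDegree_mul_le_of_le h2 (natDegree_X_pow_le _)).trans (by omega)
  · refine natDegree_add_le_of_degree_le (natDegree_add_le_of_degree_le ?_ hδ) hx
    exact (natDegree_mul_le_of_le h4 hα).trans (by omega)
  · refine natDegree_add_le_of_degree_le ?_ hδ
    exact (natDegree_mul_le_of_le h2 hβ).trans (by omega)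
  · obtain ⟨σ1, f1, g1⟩ := h m s
    obtain ⟨σ2, f2, g2⟩ := h (s - m) 0
    obtain ⟨σ3, f3, g3⟩ := h m' 1
    obtain ⟨σ4, f4, g4⟩ := h (s - m') 0
    push_cast [Nat.cast_sub hm, Nat.cast_sub hm'] at *
    refine ⟨_, ((f1.add f2).add (f3.add f4)).of_eq (by ring) rfl, ?_⟩
    simp only [mul_add (1 - X ^ 2 : ℤ[X])]
    rw [g1, g2, g3, g4]
    ring

/-- Eight simple and four nested brooms. -/
theorem pairG (i : ℕ) : ∃ γ₀ γ₁ z₀ z₁ z₂ : ℤ[X], γ₀.natDegree ≤ i + 2 ∧ γ₁.natDegree ≤ i + 2 ∧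
    z₀.natDegree ≤ 2 * i + 6 ∧ z₁.natDegree ≤ 2 * i + 6 ∧ z₂.natDegree ≤ 2 * i + 6 ∧
    ∀ (Y : ℕ) (ρ v : ℤ), 1 ≤ Y → 0 ≤ ρ → ρ < 4 * Y ^ 2 → 68 * Y ^ 2 ≤ v → v ≤ 76 * Y ^ 2 →
      ∃ σ : ℤ[X], Fo (γ₀ + (Y : ℤ[X]) * γ₁) σ ∧
      (1 - X ^ 2) * σ = z₀ + (Y : ℤ[X]) * z₁ + (Y : ℤ[X]) ^ 2 * z₂ +
        (2 * (ρ : ℤ[X]) * (X ^ 3 - X ^ (2 * i + 5)) +
          2 * (v : ℤ[X]) * (X ^ 2 - X ^ (2 * i + 4))) := by
  obtain ⟨γ₀, γ₁, z₀, z₁, hγ₀, hγ₁, hz₀, hz₁, h⟩ := evenG i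
  obtain ⟨γ₀', γ₁', z₀', z₁', z₂', hγ₀', hγ₁', hz₀', hz₁', hz₂', h'⟩ := oddG i
  have h4 : (4 : ℤ[X]).natDegree ≤ 0 := by simp
  have h2 : (2 : ℤ[X]).natDegree ≤ 0 := by simp
  refine ⟨γ₀ + γ₀', 4 * γ₁ + 2 * γ₁', z₀ + z₀', 4 * z₁ + 2 * z₁', 4 * z₂', ?_, ?_, ?_, ?_, ?_,
    fun Y ρ v hY hρ hρ' hv hv' => ?_⟩
  · exact natDegree_add_le_of_degree_le (hγ₀.trans (by omega)) hγ₀'
  · refine natDegree_add_le_of_degree_le ?_ ?_
    · exact (natDegree_mul_le_of_le h4 hγ₁).trans (by omega)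
    · exact (natDegree_mul_le_of_le h2 hγ₁').trans (by omega)
  · exact natDegree_add_le_of_degree_le (hz₀.trans (by omega)) hz₀'
  · refine natDegree_add_le_of_degree_le ?_ ?_
    · exact (natDegree_mul_le_of_le h4 hz₁).trans (by omega)
    · exact (natDegree_mul_le_of_le h2 hz₁').trans (by omega)
  · exact (natDegree_mul_le_of_le h4 hz₂').trans (by omega)
  · obtain ⟨r, rfl⟩ := Int.eq_ofNat_of_zero_le hρ
    set s := 2 * Y with hs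
    set m := r / s with hm
    set m' := r % s with hm'
    have hs0 : 0 < s := by omega
    have hr : r < 4 * Y ^ 2 := by exact_mod_cast hρ'
    have e1 : m * s + m' = r := by
      rw [hm, hm', mul_comm]
      exact Nat.div_add_mod r s
    have hm1 : m ≤ s := by
      have : m < s := by
        rw [hm, Nat.div_lt_iff_lt_mul hs0, hs]
        nlinarith
      omega
    have hm2 : m' ≤ s := (Nat.mod_lt r hs0).le
    obtain ⟨p, hp⟩ := Nat.exists_eq_add_of_le hm1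
    obtain ⟨q, hq⟩ := Nat.exists_eq_add_of_le hm2
    have hsY : (s : ℤ) = 2 * Y := by rw [hs]; push_cast; ring
    have hp' : (s : ℤ) = m + p := by rw [hp]; push_cast; ring
    have hq' : (s : ℤ) = m' + q := by rw [hq]; push_cast; ring
    have hmp : (m : ℤ) * p ≤ Y ^ 2 := by nlinarith [sq_nonneg ((m : ℤ) - p)]
    have hmq : (m' : ℤ) * q ≤ Y ^ 2 := by nlinarith [sq_nonneg ((m' : ℤ) - q)]
    have hmp0 : 0 ≤ (m : ℤ) * p := by positivity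
    have hmq0 : 0 ≤ (m' : ℤ) * q := by positivity
    obtain ⟨u, hu⟩ := Int.eq_ofNat_of_zero_le (a := v - 68 * Y ^ 2 + m * p + m' * q) (by linarith)
    have hu' : u ≤ (4 * Y) ^ 2 := by
      have : (u : ℤ) ≤ (4 * Y) ^ 2 := by
        rw [← hu]
        nlinarith
      exact_mod_cast this
    obtain ⟨σ1, f1, g1⟩ := h (4 * Y) u hu'
    obtain ⟨σ2, f2, g2⟩ := h' s m m' hm1 hm2
    refine ⟨σ1 + σ2, (f1.add f2).of_eq ?_ rfl, ?_⟩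
    · rw [hs]
      push_cast
      ring
    · rw [mul_add, g1, g2]
      have a1 : (v : ℤ[X]) = (u : ℤ[X]) + 68 * (Y : ℤ[X]) ^ 2 -
          (m : ℤ[X]) * (p : ℤ[X]) - (m' : ℤ[X]) * (q : ℤ[X]) := by
        have : v = (u : ℤ) + 68 * Y ^ 2 - m * p - m' * q := by linarith
        rw [this]
        push_cast
        ring
      have a2 : ((r : ℕ) : ℤ[X]) = (m : ℤ[X]) * (s : ℤ[X]) + (m' : ℤ[X]) := by
        rw [← e1]
        push_cast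
        ring
      have a3 : (s : ℤ[X]) = 2 * (Y : ℤ[X]) := by rw [hs]; push_cast; ring
      have a4 : (p : ℤ[X]) = 2 * (Y : ℤ[X]) - (m : ℤ[X]) := by
        rw [← a3, hp]
        push_cast
        ring
      have a5 : (q : ℤ[X]) = 2 * (Y : ℤ[X]) - (m' : ℤ[X]) := by
        rw [← a3, hq]
        push_cast
        ring
      rw [a1, Int.cast_natCast, a2, a4, a5, a3]
      push_cast
      ring

/-- Eight simple brooms. -/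
theorem evenG' (i : ℕ) : ∃ γ₀ γ₁ z₀ z₁ : ℤ[X], γ₀.natDegree ≤ i + 1 ∧ γ₁.natDegree ≤ i + 1 ∧
    z₀.natDegree ≤ 2 * i + 4 ∧ z₁.natDegree ≤ 2 * i + 4 ∧
    ∀ (Y : ℕ) (v : ℤ), 1 ≤ Y → 68 * Y ^ 2 ≤ v → v ≤ 76 * Y ^ 2 →
      ∃ σ : ℤ[X], Fo (γ₀ + (Y : ℤ[X]) * γ₁) σ ∧
      (1 - X ^ 2) * σ = z₀ + (Y : ℤ[X]) * z₁ + 2 * (v : ℤ[X]) * (X ^ 2 - X ^ (2 * i + 4)) := by
  obtain ⟨γ₀, γ₁, z₀, z₁, hγ₀, hγ₁, hz₀, hz₁, h⟩ := evenG i
  have h4 : (4 : ℤ[X]).natDegree ≤ 0 := by simp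
  refine ⟨γ₀, 4 * γ₁, z₀, 4 * z₁, hγ₀, ?_, hz₀, ?_, fun Y v hY hv hv' => ?_⟩
  · exact (natDegree_mul_le_of_le h4 hγ₁).trans (by omega)
  · exact (natDegree_mul_le_of_le h4 hz₁).trans (by omega)
  · obtain ⟨u, hu⟩ := Int.eq_ofNat_of_zero_le (a := v - 64 * Y ^ 2) (by nlinarith)
    have hu' : u ≤ (4 * Y) ^ 2 := by
      have : (u : ℤ) ≤ (4 * Y) ^ 2 := by
        rw [← hu]
        nlinarith
      exact_mod_cast this
    obtain ⟨σ1, f1, g1⟩ := h (4 * Y) u hu'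
    refine ⟨σ1, f1.of_eq ?_ rfl, ?_⟩
    · push_cast
      ring
    · rw [g1]
      have a1 : (v : ℤ[X]) = (u : ℤ[X]) + 64 * (Y : ℤ[X]) ^ 2 := by
        have : v = (u : ℤ) + 64 * Y ^ 2 := by linarith
        rw [this]
        push_cast
        ring
      rw [a1]
      push_cast
      ring

/-- All gadgets of a given number of types. -/
theorem gadgets (k : ℕ) : ∃ Γ₀ Γ₁ Z₀ Z₁ Z₂ : ℤ[X], Γ₀.natDegree ≤ k + 1 ∧
    Γ₁.natDegree ≤ k + 1 ∧ Z₀.natDegree ≤ 2 * k + 4 ∧ Z₁.natDegree ≤ 2 * k + 4 ∧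
    Z₂.natDegree ≤ 2 * k + 4 ∧
    ∀ (Y : ℕ) (ρ v : ℕ → ℤ), 1 ≤ Y → (∀ i < k, 0 ≤ ρ i ∧ ρ i < 4 * Y ^ 2) →
      (∀ i < k, 68 * Y ^ 2 ≤ v i ∧ v i ≤ 76 * Y ^ 2) →
      ∃ σ : ℤ[X], Fo (Γ₀ + (Y : ℤ[X]) * Γ₁) σ ∧
      (1 - X ^ 2) * σ = Z₀ + (Y : ℤ[X]) * Z₁ + (Y : ℤ[X]) ^ 2 * Z₂ +
        ∑ i ∈ Finset.range k, (2 * (ρ i : ℤ[X]) * (X ^ 3 - X ^ (2 * i + 5)) +
          2 * (v i : ℤ[X]) * (X ^ 2 - X ^ (2 * i + 4))) := by
  induction k with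
  | zero =>
    refine ⟨0, 0, 0, 0, 0, by simp, by simp, by simp, by simp, by simp,
      fun Y ρ v _ _ _ => ⟨0, by simpa using Fo.nil, by simp⟩⟩
  | succ k ih =>
    obtain ⟨Γ₀, Γ₁, Z₀, Z₁, Z₂, h1, h2, h3, h4, h5, h⟩ := ih
    obtain ⟨γ₀, γ₁, z₀, z₁, z₂, h1', h2', h3', h4', h5', h'⟩ := pairG k
    refine ⟨Γ₀ + γ₀, Γ₁ + γ₁, Z₀ + z₀, Z₁ + z₁, Z₂ + z₂,
      natDegree_add_le_of_degree_le (h1.trans (by omega)) (h1'.trans (by omega)),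
      natDegree_add_le_of_degree_le (h2.trans (by omega)) (h2'.trans (by omega)),
      natDegree_add_le_of_degree_le (h3.trans (by omega)) (h3'.trans (by omega)),
      natDegree_add_le_of_degree_le (h4.trans (by omega)) (h4'.trans (by omega)),
      natDegree_add_le_of_degree_le (h5.trans (by omega)) (h5'.trans (by omega)),
      fun Y ρ v hY hρ hv => ?_⟩
    obtain ⟨σ1, f1, g1⟩ := h Y ρ v hY (fun i hi => hρ i (by omega)) (fun i hi => hv i (by omega))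
    obtain ⟨σ2, f2, g2⟩ := h' Y (ρ k) (v k) hY (hρ k (by omega)).1 (hρ k (by omega)).2
      (hv k (by omega)).1 (hv k (by omega)).2
    refine ⟨σ1 + σ2, (f1.add f2).of_eq (by ring) rfl, ?_⟩
    rw [mul_add, g1, g2, Finset.sum_range_succ]
    ring

/-- All gadgets: `k` nested types, `k + 1` simple types. -/
theorem allGadgets (k : ℕ) : ∃ Γ₀ Γ₁ Z₀ Z₁ Z₂ : ℤ[X], Γ₀.natDegree ≤ k + 1 ∧
    Γ₁.natDegree ≤ k + 1 ∧ Z₀.natDegree ≤ 2 * k + 4 ∧ Z₁.natDegree ≤ 2 * k + 4 ∧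
    Z₂.natDegree ≤ 2 * k + 4 ∧
    ∀ (Y : ℕ) (ρ v : ℕ → ℤ), 1 ≤ Y → (∀ i < k, 0 ≤ ρ i ∧ ρ i < 4 * Y ^ 2) →
      (∀ i < k + 1, 68 * Y ^ 2 ≤ v i ∧ v i ≤ 76 * Y ^ 2) →
      ∃ σ : ℤ[X], Fo (Γ₀ + (Y : ℤ[X]) * Γ₁) σ ∧
      (1 - X ^ 2) * σ = Z₀ + (Y : ℤ[X]) * Z₁ + (Y : ℤ[X]) ^ 2 * Z₂ +
        (∑ i ∈ Finset.range k, 2 * (ρ i : ℤ[X]) * (X ^ 3 - X ^ (2 * i + 5)) +
        ∑ i ∈ Finset.range (k + 1), 2 * (v i : ℤ[X]) * (X ^ 2 - X ^ (2 * i + 4))) := by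
  obtain ⟨Γ₀, Γ₁, Z₀, Z₁, Z₂, h1, h2, h3, h4, h5, h⟩ := gadgets k
  obtain ⟨γ₀, γ₁, z₀, z₁, h1', h2', h3', h4', h'⟩ := evenG' k
  refine ⟨Γ₀ + γ₀, Γ₁ + γ₁, Z₀ + z₀, Z₁ + z₁, Z₂,
    natDegree_add_le_of_degree_le h1 h1', natDegree_add_le_of_degree_le h2 h2',
    natDegree_add_le_of_degree_le h3 h3', natDegree_add_le_of_degree_le h4 h4', h5,
    fun Y ρ v hY hρ hv => ?_⟩
  obtain ⟨σ1, f1, g1⟩ := h Y ρ v hY hρ (fun i hi => hv i (by omega))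
  obtain ⟨σ2, f2, g2⟩ := h' Y (v k) hY (hv k (by omega)).1 (hv k (by omega)).2
  refine ⟨σ1 + σ2, (f1.add f2).of_eq (by ring) rfl, ?_⟩
  rw [mul_add, g1, g2, Finset.sum_range_succ, Finset.sum_add_distrib]
  ring

end Pool.Agent.H37.WR
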