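import Pool.Agent.H37.WR.Num

/-!
# Verification of the hypotheses of the descent lemma
-/

namespace Pool.Agent.H37.WR

theorem hyp_ok (g : ℕ) (hg : 1 ≤ g) (lam : ℕ → ℕ → ℤ) (κ w : ℕ → ℤ) (Y R C G1 Gm A₀ A₁ : ℤ)
    (hR : 1 ≤ R) (hC : 1 ≤ C) (hY : 2000000 * R * C * 11 ^ (2 * g + 1) ≤ Y)
    (hG1 : 0 ≤ G1) (hG1' : (2 * g + 1) + G1 ≤ C * Y) (hGm : |Gm| ≤ C * Y)
    (hA : A₀ + A₁ = Y ^ 2 - (2 * g + 1) - G1) (hA' : A₀ - A₁ = 1 - Gm - Y)
    (lam0 : ∀ l j, 0 ≤ lam l j) (lam1 : ∀ l j, lam l j ≤ 2 * ((2 * g + 1) + G1))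
    (hκ : ∀ l, l ≤ 2 * g → |κ l| ≤ C * Y ^ 2)
    (hw : ∀ j, 4000 * w (j + 4) ≤ w (j + 3)) (hw3 : 2 * w 3 ≤ Y ^ 4) (hw0 : ∀ k, 0 ≤ w k)
    (hwt : Y ^ 4 ≤ 16 * R * w (2 * g + 2)) :
    Hyp (2 * g) lam κ (fun l => 2 * w (l + 2) + (if l % 2 = 0 then 144 else 4) * Y ^ 2) (Y ^ 2)
      (2 * ((2 * g + 1) + G1)) A₀ A₁ := by
  have h11 : (1 : ℤ) ≤ 11 ^ (2 * g + 1) := one_le_pow₀ (by norm_num)
  have hRC : 1 ≤ R * C := by nlinarith
  have hY1 : 2000000 * (R * C) ≤ Y := by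
    have : 2000000 * (R * C) * 1 ≤ 2000000 * (R * C) * 11 ^ (2 * g + 1) :=
      mul_le_mul_of_nonneg_left h11 (by positivity)
    linarith
  have hYR : 2000000 * R ≤ Y := by nlinarith
  have hYC : 2000000 * C ≤ Y := by nlinarith
  have hY0 : 2000000 ≤ Y := by linarith
  have hY11 : 2000000 * C * 11 ^ (2 * g + 1) ≤ Y := by
    have : 2000000 * C * 11 ^ (2 * g + 1) * 1 ≤ 2000000 * C * 11 ^ (2 * g + 1) * R :=
      mul_le_mul_of_nonneg_left hR (by positivity)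
    linarith
  have hCY : C * Y * 2000000 ≤ Y ^ 2 := by nlinarith
  have hg' : (1 : ℤ) ≤ g := by exact_mod_cast hg
  obtain ⟨hGm1, hGm2⟩ := abs_le.1 hGm
  -- antitone
  have anti : ∀ d j, w (j + 3 + d) ≤ w (j + 3) := by
    intro d
    induction d with
    | zero => intro j; exact le_rfl
    | succ d ih =>
      intro j
      have h1 := ih (j + 1)
      have h2 := hw j
      have h3 := hw0 (j + 4)
      have e : j + 3 + (d + 1) = j + 1 + 3 + d := by omega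
      rw [e]
      have e2 : j + 1 + 3 = j + 4 := by omega
      rw [e2] at h1 ⊢
      linarith
  have hbig : ∀ c : ℤ, 0 ≤ c → 16 * R * c ≤ Y ^ 4 → c ≤ w (2 * g + 2) := by
    intro c _ h
    have h1 : 16 * R * c ≤ 16 * R * w (2 * g + 2) := h.trans hwt
    exact le_of_mul_le_mul_left h1 (by linarith)
  have hY2 : 0 < Y ^ 2 := by positivity
  have hY3 : 0 < Y ^ 3 := by positivity
  have e4 : Y ^ 4 = Y ^ 2 * Y ^ 2 := by ring
  have e4' : Y ^ 4 = Y * Y ^ 3 := by ring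
  have hY22 : 2000000 * R ≤ Y ^ 2 := by nlinarith
  have hb1 : 96000 * Y ^ 2 ≤ w (2 * g + 2) := by
    apply hbig _ (by positivity)
    rw [e4]
    have : 2000000 * R * Y ^ 2 ≤ Y ^ 2 * Y ^ 2 := mul_le_mul_of_nonneg_right hY22 hY2.le
    nlinarith
  have hcl : ∀ l : ℕ, (4 : ℤ) ≤ (if l % 2 = 0 then 144 else 4) ∧
      (if l % 2 = 0 then (144 : ℤ) else 4) ≤ 144 := by
    intro l
    split <;> norm_num
  refine ⟨by omega, by nlinarith, lam0, lam1, ?_, ?_, ?_, ?_, ?_, ?_, ?_, ?_, ?_⟩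
  · nlinarith
  · nlinarith
  · nlinarith
  · intro l hl hl2
    beta_reduce
    obtain ⟨j, rfl⟩ : ∃ j, l = j + 2 := ⟨l - 2, by omega⟩
    have h1 := hw (j + 1)
    have e1 : j + 2 + 1 + 2 = j + 1 + 4 := by omega
    have e2 : j + 2 + 2 = j + 1 + 3 := by omega
    rw [e1, e2]
    have h2 := anti (2 * g - j - 2) (j + 1)
    have e3 : j + 1 + 3 + (2 * g - j - 2) = 2 * g + 2 := by omega
    rw [e3] at h2
    have h3 := hcl (j + 2 + 1)
    have h4 := hcl (j + 2)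
    have h5 := mul_le_mul_of_nonneg_right h3.2 hY2.le
    have h6 := mul_le_mul_of_nonneg_right h4.1 hY2.le
    linarith
  · beta_reduce
    have h1 := hw 0
    have e : (0 + 4 : ℕ) = 2 + 2 := rfl
    have e' : (0 + 3 : ℕ) = 3 := rfl
    rw [e, e'] at h1
    have h3 := hcl 2
    have h5 := mul_le_mul_of_nonneg_right h3.2 hY2.le
    have e5 : (Y ^ 2) ^ 2 = Y ^ 4 := by ring
    rw [e5]
    have h6 : 2000000 * Y ^ 2 ≤ Y ^ 4 := by
      rw [e4]
      exact mul_le_mul_of_nonneg_right (by nlinarith) hY2.le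
    linarith
  · beta_reduce
    have h3 := hcl (2 * g)
    have h6 := mul_le_mul_of_nonneg_right h3.1 hY2.le
    have h7 : 200 * C * Y ^ 3 ≤ w (2 * g + 2) := by
      apply hbig _ (by positivity)
      rw [e4']
      have : 2000000 * (R * C) * Y ^ 3 ≤ Y * Y ^ 3 := mul_le_mul_of_nonneg_right hY1 hY3.le
      have h0 : 0 ≤ R * C * Y ^ 3 := by positivity
      nlinarith
    have h8 : 100 * (2 * ((2 * g + 1) + G1)) * Y ^ 2 ≤ 200 * C * Y ^ 3 := by
      have : ((2 * g + 1) + G1) * Y ^ 2 ≤ C * Y * Y ^ 2 := mul_le_mul_of_nonneg_right hG1' hY2.le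
      nlinarith
    have h9 := hw0 (2 * g + 2)
    linarith
  · beta_reduce
    have h3 := hcl (2 * g)
    have h6 := mul_le_mul_of_nonneg_right h3.1 hY2.le
    linarith
  · intro l hl hl2
    beta_reduce
    have h3 := hcl (2 * g)
    have h6 := mul_le_mul_of_nonneg_right h3.1 hY2.le
    have h7 : 100 * (C * Y ^ 2) ≤ w (2 * g + 2) := by
      apply hbig _ (by positivity)
      rw [e4]
      have h0 : R * C * 2000000 ≤ Y ^ 2 := by nlinarith
      have : R * C * 2000000 * Y ^ 2 ≤ Y ^ 2 * Y ^ 2 := mul_le_mul_of_nonneg_right h0 hY2.le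
      have h00 : 0 ≤ R * C * Y ^ 2 := by positivity
      nlinarith
    have h8 := hκ l hl2
    have h9 := hw0 (2 * g + 2)
    linarith
  · have h1 : 2 * ((2 * g + 1) + G1) * 11 ^ (2 * g + 1) ≤ 2 * (C * Y) * 11 ^ (2 * g + 1) :=
      mul_le_mul_of_nonneg_right (by linarith) (by positivity)
    have h2 : 2000000 * C * 11 ^ (2 * g + 1) * Y ≤ Y * Y :=
      mul_le_mul_of_nonneg_right hY11 (by linarith)
    have h3 : 0 ≤ C * 11 ^ (2 * g + 1) * Y := by positivity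
    nlinarith

end Pool.Agent.H37.WR
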