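import Mathlib

/-!
# The target polynomials
-/

namespace Pool.Agent.H37.WR

open Polynomial

theorem coeff_le_eval {P : ℤ[X]} (h : ∀ k, 0 ≤ P.coeff k) (k : ℕ) : P.coeff k ≤ P.eval 1 := by
  rw [eval_eq_sum_range]
  simp only [one_pow, mul_one]
  by_cases hk : k ≤ P.natDegree
  · exact Finset.single_le_sum (f := fun i => P.coeff i) (fun i _ => h i)
      (by rw [Finset.mem_range]; omega)
  · rw [coeff_eq_zero_of_natDegree_lt (by omega)]
    exact Finset.sum_nonneg fun i _ => h i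

/-- The coefficients of `(X + r) ^ t`. -/
def bb (r t j : ℕ) : ℤ := (r : ℤ) ^ (t - j) * (t.choose j : ℤ)

theorem bb_nonneg (r t j : ℕ) : 0 ≤ bb r t j := by
  unfold bb
  positivity

theorem bb_ratio (t j : ℕ) : 4000 * bb (4000 * t + 1) t (j + 1) ≤ bb (4000 * t + 1) t j := by
  by_cases h : j + 1 ≤ t
  · unfold bb
    have e : t - j = (t - (j + 1)) + 1 := by omega
    rw [e, pow_succ]
    have h1 : t.choose (j + 1) ≤ t * t.choose j := by
      have h2 := Nat.choose_succ_right_eq t j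
      calc t.choose (j + 1) ≤ t.choose (j + 1) * (j + 1) := Nat.le_mul_of_pos_right _ (by omega)
        _ = t.choose j * (t - j) := h2
        _ ≤ t.choose j * t := Nat.mul_le_mul_left _ (by omega)
        _ = t * t.choose j := Nat.mul_comm _ _
    have h3 : (t.choose (j + 1) : ℤ) ≤ t * t.choose j := by exact_mod_cast h1
    have h4 : (0 : ℤ) ≤ t.choose j := by positivity
    have h5 : (0 : ℤ) ≤ ((4000 * t + 1 : ℕ) : ℤ) ^ (t - (j + 1)) := by positivity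
    have h6 : 4000 * (t.choose (j + 1) : ℤ) ≤ ((4000 * t + 1 : ℕ) : ℤ) * t.choose j := by
      push_cast
      nlinarith
    calc 4000 * (((4000 * t + 1 : ℕ) : ℤ) ^ (t - (j + 1)) * (t.choose (j + 1) : ℤ))
        = ((4000 * t + 1 : ℕ) : ℤ) ^ (t - (j + 1)) * (4000 * (t.choose (j + 1) : ℤ)) := by ring
      _ ≤ ((4000 * t + 1 : ℕ) : ℤ) ^ (t - (j + 1)) *
          (((4000 * t + 1 : ℕ) : ℤ) * t.choose j) := mul_le_mul_of_nonneg_left h6 h5
      _ = _ := by ring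
  · have : bb (4000 * t + 1) t (j + 1) = 0 := by
      unfold bb
      rw [Nat.choose_eq_zero_of_lt (by omega)]
      simp
    rw [this]
    simpa using bb_nonneg _ _ _

theorem coeff_aux (r t j : ℕ) : ((X + C (r : ℤ)) ^ t).coeff j = bb r t j :=
  coeff_X_add_C_pow _ _ _

/-- The polynomial `κ X (1 + X) (1 + s X) (X + r) ^ t`. -/
noncomputable def WW (κ s : ℤ) (r t : ℕ) : ℤ[X] :=
  C κ * (X * ((1 + X) * (1 + C s * X) * (X + C (r : ℤ)) ^ t))

theorem WW_c0 (κ s : ℤ) (r t : ℕ) : (WW κ s r t).coeff 0 = 0 := by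
  simp [WW]

theorem WW_eq (κ s : ℤ) (r t : ℕ) : WW κ s r t = C κ * (X * (X + C (r : ℤ)) ^ t) +
    C (κ * (1 + s)) * (X ^ 2 * (X + C (r : ℤ)) ^ t) + C (κ * s) * (X ^ 3 * (X + C (r : ℤ)) ^ t) := by
  simp only [WW, C_mul, C_add, C_1]
  ring

theorem WW_c1 (κ s : ℤ) (r t : ℕ) : (WW κ s r t).coeff 1 = κ * r ^ t := by
  unfold WW
  rw [coeff_C_mul, show (1 : ℕ) = 0 + 1 from rfl, coeff_X_mul]
  rw [mul_coeff_zero, mul_coeff_zero]
  simp only [coeff_aux, bb]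
  simp

theorem WW_c (κ s : ℤ) (r t j : ℕ) : (WW κ s r t).coeff (j + 3) =
    κ * bb r t (j + 2) + κ * (1 + s) * bb r t (j + 1) + κ * s * bb r t j := by
  rw [WW_eq]
  simp only [coeff_add, coeff_C_mul]
  rw [show j + 3 = (j + 2) + 1 from rfl, coeff_X_mul, show j + 2 + 1 = (j + 1) + 2 from rfl,
    coeff_X_pow_mul, show (j + 1) + 2 = j + 3 from rfl, coeff_X_pow_mul]
  simp only [coeff_aux]

theorem WW_deg (κ s : ℤ) (r t k : ℕ) (hk : t + 3 < k) : (WW κ s r t).coeff k = 0 := by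
  obtain ⟨j, rfl⟩ : ∃ j, k = j + 3 := ⟨k - 3, by omega⟩
  rw [WW_c]
  unfold bb
  rw [Nat.choose_eq_zero_of_lt (by omega), Nat.choose_eq_zero_of_lt (by omega),
    Nat.choose_eq_zero_of_lt (by omega)]
  simp

theorem WW_top (κ s : ℤ) (r t : ℕ) : (WW κ s r t).coeff (t + 3) = κ * s := by
  rw [WW_c]
  unfold bb
  rw [Nat.choose_eq_zero_of_lt (by omega), Nat.choose_eq_zero_of_lt (by omega)]
  simp

theorem WW_nonneg (κ s : ℤ) (hκ : 0 ≤ κ) (hs : 0 ≤ s) (r t : ℕ) (k : ℕ) :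
    0 ≤ (WW κ s r t).coeff k := by
  have hX : ∀ k, 0 ≤ ((X + C (r : ℤ)) ^ t).coeff k := fun k => by
    rw [coeff_aux]
    exact bb_nonneg _ _ _
  have hs' : 0 ≤ κ * (1 + s) := by positivity
  have hs'' : 0 ≤ κ * s := by positivity
  rw [WW_eq]
  simp only [coeff_add, coeff_C_mul]
  have h1 : 0 ≤ ((X : ℤ[X]) * (X + C (r : ℤ)) ^ t).coeff k := by
    have := coeff_X_pow_mul' ((X + C (r : ℤ)) ^ t) 1 k
    rw [pow_one] at this
    rw [this]
    split
    · exact hX _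
    · exact le_rfl
  have h2 : 0 ≤ ((X : ℤ[X]) ^ 2 * (X + C (r : ℤ)) ^ t).coeff k := by
    rw [coeff_X_pow_mul']
    split
    · exact hX _
    · exact le_rfl
  have h3 : 0 ≤ ((X : ℤ[X]) ^ 3 * (X + C (r : ℤ)) ^ t).coeff k := by
    rw [coeff_X_pow_mul']
    split
    · exact hX _
    · exact le_rfl
  positivity

theorem WW_ratio (κ s : ℤ) (hκ : 0 ≤ κ) (hs : 0 ≤ s) (t : ℕ) (j : ℕ) :
    4000 * (WW κ s (4000 * t + 1) t).coeff (j + 4) ≤ (WW κ s (4000 * t + 1) t).coeff (j + 3) := by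
  rw [show j + 4 = (j + 1) + 3 from rfl, WW_c, WW_c]
  have h0 := mul_le_mul_of_nonneg_left (bb_ratio t j) (by positivity : 0 ≤ κ * s)
  have h1 := mul_le_mul_of_nonneg_left (bb_ratio t (j + 1)) (by positivity : 0 ≤ κ * (1 + s))
  have h2 := mul_le_mul_of_nonneg_left (bb_ratio t (j + 2)) hκ
  linarith

theorem WW_roots (κ s : ℤ) (hκ : κ ≠ 0) (r t : ℕ) (z : ℂ)
    (h : aeval z (WW κ s r t) = 0) : ∃ q : ℚ, z = q := by
  simp only [WW, map_mul, aeval_X, map_add, map_one, map_pow,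
    eq_intCast, map_intCast] at h
  rcases mul_eq_zero.1 h with h | h
  · exact absurd (by exact_mod_cast h) hκ
  rcases mul_eq_zero.1 h with h | h
  · exact ⟨0, by simpa using h⟩
  rcases mul_eq_zero.1 h with h | h
  · rcases mul_eq_zero.1 h with h | h
    · exact ⟨-1, by push_cast; linear_combination h⟩
    · by_cases hs : s = 0
      · rw [hs] at h
        simp at h
      · have hs' : (s : ℂ) ≠ 0 := by exact_mod_cast hs
        refine ⟨-1 / s, ?_⟩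
        push_cast
        field_simp
        linear_combination h
  · have h := eq_zero_of_pow_eq_zero h
    refine ⟨-r, ?_⟩
    push_cast at h ⊢
    linear_combination h

theorem WW_eval1 (κ s : ℤ) (r t : ℕ) : (WW κ s r t).eval 1 = 2 * κ * (1 + s) * (1 + r) ^ t := by
  simp only [WW, eval_mul, eval_C, eval_X, eval_add, eval_one, eval_pow]
  ring

theorem WW_evalm1 (κ s : ℤ) (r t : ℕ) : (WW κ s r t).eval (-1) = 0 := by
  simp only [WW, eval_mul, eval_C, eval_X, eval_add, eval_one, eval_pow]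
  ring

/-- The target polynomials: for every `t` there are arbitrarily large `Y` with a polynomial `W`
with only rational roots and the listed properties. -/
theorem target (t : ℕ) (ht : 1 ≤ t) : ∃ R : ℤ, 1 ≤ R ∧ ∀ N : ℕ, ∃ Y : ℕ, N ≤ Y ∧ ∃ W : ℤ[X],
    W.coeff 0 = 0 ∧ W.coeff 1 = (Y : ℤ) ^ 2 - 1 ∧ (∀ k, t + 3 < k → W.coeff k = 0) ∧
    2 * W.eval 1 = (Y : ℤ) ^ 2 * ((Y : ℤ) ^ 2 - 1) ∧ W.eval (-1) = 0 ∧
    (∀ j, 4000 * W.coeff (j + 4) ≤ W.coeff (j + 3)) ∧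
    2 * W.coeff 3 ≤ (Y : ℤ) ^ 4 ∧ (∀ k, 0 ≤ W.coeff k) ∧
    (Y : ℤ) ^ 4 ≤ 16 * R * W.coeff (t + 3) ∧
    ∀ z : ℂ, aeval z W = 0 → ∃ q : ℚ, z = q := by
  set r : ℕ := 4000 * t + 1 with hr
  set R : ℕ := (1 + r) ^ t with hR
  have hR1 : 1 ≤ R := Nat.one_le_pow _ _ (by omega)
  have hr1 : 1 < r ^ t := Nat.one_lt_pow (by omega) (by omega)
  have hcop : Nat.Coprime (2 * R) (r ^ t) := by
    apply Nat.Coprime.pow_right
    apply Nat.Coprime.mul_left
    · rw [Nat.coprime_two_left]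
      exact ⟨2000 * t, by omega⟩
    · apply Nat.Coprime.pow_left
      rw [Nat.coprime_add_self_left]
      exact Nat.coprime_one_left r
  obtain ⟨y₀, hy₀⟩ := Nat.exists_mul_mod_eq_one_of_coprime hcop hr1
  refine ⟨R, by exact_mod_cast hR1, fun N => ?_⟩
  set m : ℕ := N + 8 * R with hm
  set y : ℕ := y₀ + m * r ^ t with hy
  set Y : ℕ := 2 * R * y with hY
  have hmy : m ≤ y := by
    have : m * 1 ≤ m * r ^ t := Nat.mul_le_mul_left _ hr1.le
    omega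
  have hyY : y ≤ Y := by
    have : 1 * y ≤ 2 * R * y := Nat.mul_le_mul_right _ (by omega)
    omega
  have hYmod : Y ≡ 1 [MOD r ^ t] := by
    have : Y = 2 * R * y₀ + r ^ t * (2 * R * m) := by
      rw [hY, hy]
      ring
    unfold Nat.ModEq
    rw [this, Nat.add_mul_mod_self_left, hy₀.2, Nat.mod_eq_of_lt hr1]
  have hY1 : 1 ≤ Y := by omega
  have hdvd : ((r : ℤ) ^ t) ∣ (Y : ℤ) ^ 2 - 1 := by
    have h1 : ((r : ℤ) ^ t) ∣ (Y : ℤ) - 1 := by
      have := (Nat.modEq_iff_dvd.1 hYmod.symm)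
      push_cast at this
      exact this
    have : (Y : ℤ) ^ 2 - 1 = ((Y : ℤ) - 1) * (Y + 1) := by ring
    rw [this]
    exact h1.mul_right _
  obtain ⟨κ, hκ⟩ := hdvd
  set s : ℤ := (r : ℤ) ^ t * R * (y : ℤ) ^ 2 - 1 with hs
  have hR1' : (1 : ℤ) ≤ R := by exact_mod_cast hR1
  have hYR : (8 : ℤ) * R ≤ Y := by
    have : 8 * R ≤ Y := by omega
    exact_mod_cast this
  have hrt : (1 : ℤ) ≤ (r : ℤ) ^ t := by exact_mod_cast hr1.le
  have hrt0 : (0 : ℤ) < (r : ℤ) ^ t := by linarith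
  have hY2 : (Y : ℤ) ^ 2 ≥ 8 * R * (8 * R) := by nlinarith
  have hκ0 : 0 < κ := by
    by_contra hc
    push Not at hc
    have : (Y : ℤ) ^ 2 - 1 ≤ 0 := by
      rw [hκ]
      exact mul_nonpos_of_nonneg_of_nonpos hrt0.le hc
    nlinarith
  have hy1 : (1 : ℤ) ≤ (y : ℤ) := by
    have : 1 ≤ y := by omega
    exact_mod_cast this
  have hs0 : 0 ≤ s := by
    have h1 : (1 : ℤ) ≤ (r : ℤ) ^ t * R := by nlinarith
    have h2 : (1 : ℤ) ≤ (y : ℤ) ^ 2 := by nlinarith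
    have h3 : (1 : ℤ) * 1 ≤ (r : ℤ) ^ t * R * (y : ℤ) ^ 2 := by
      apply mul_le_mul h1 h2 (by norm_num) (by linarith)
    rw [hs]
    linarith
  have hYy : (Y : ℤ) = 2 * R * y := by
    rw [hY]
    push_cast
    ring
  have hRR : ((1 : ℤ) + r) ^ t = R := by
    rw [hR]
    push_cast
    ring
  have hev : 2 * (WW κ s r t).eval 1 = (Y : ℤ) ^ 2 * ((Y : ℤ) ^ 2 - 1) := by
    rw [WW_eval1, hRR, hκ, hs, hYy]
    ring
  refine ⟨Y, by omega, WW κ s r t, WW_c0 _ _ _ _, ?_, WW_deg _ _ _ _, hev, WW_evalm1 _ _ _ _,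
    WW_ratio κ s hκ0.le hs0 t, ?_, WW_nonneg κ s hκ0.le hs0 r t, ?_,
    WW_roots κ s hκ0.ne' r t⟩
  · rw [WW_c1, hκ]
    ring
  · have h1 := coeff_le_eval (WW_nonneg κ s hκ0.le hs0 r t) 3
    have h2 : (0 : ℤ) ≤ (Y : ℤ) ^ 2 := by positivity
    nlinarith
  · rw [WW_top]
    -- `4 R κ (1 + s) = (Y² - 1) Y²`
    have h1 : 4 * R * (κ * (1 + s)) = ((Y : ℤ) ^ 2 - 1) * (Y : ℤ) ^ 2 := by
      rw [hκ, hs, hYy]
      ring
    have h2 : κ ≤ (Y : ℤ) ^ 2 - 1 := by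
      rw [hκ]
      nlinarith
    set n : ℤ := (Y : ℤ) ^ 2 with hn
    have h3 : 16 * R * (κ * s) = 4 * ((n - 1) * n) - 16 * R * κ := by
      linear_combination 4 * h1
    have h4 : 16 * (R : ℤ) * κ ≤ 16 * R * (n - 1) := mul_le_mul_of_nonneg_left h2 (by positivity)
    have h5 : (Y : ℤ) ^ 4 = n ^ 2 := by
      rw [hn]
      ring
    rw [h3, h5]
    have h6 : 16 * (R : ℤ) ≤ n := by nlinarith
    have h7 : 16 * (R : ℤ) * (n - 1) ≤ n * (n - 1) :=
      mul_le_mul_of_nonneg_right h6 (by nlinarith)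
    nlinarith

end Pool.Agent.H37.WR
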