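import Pool.Agent.H37.WR.Asm
import Pool.Agent.H37.WR.Gadgets
import Pool.Agent.H37.WR.HypOk
import Pool.Agent.H37.WR.Target

/-!
# The core: a forest whose polynomial is a target polynomial
-/

namespace Pool.Agent.H37.WR

open Polynomial Finset

noncomputable def SS (k : ℕ) (ρ v : ℕ → ℤ) : ℤ[X] :=
  ∑ i ∈ Finset.range k, 2 * (ρ i : ℤ[X]) * (X ^ 3 - X ^ (2 * i + 5)) +
    ∑ i ∈ Finset.range (k + 1), 2 * (v i : ℤ[X]) * (X ^ 2 - X ^ (2 * i + 4))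

theorem term_coeff (c : ℤ) (p q m : ℕ) : (2 * (c : ℤ[X]) * (X ^ p - X ^ q)).coeff m =
    2 * c * ((if m = p then 1 else 0) - (if m = q then 1 else 0)) := by
  have e : (2 * (c : ℤ[X])) = C (2 * c) := by simp
  rw [e, coeff_C_mul, coeff_sub, coeff_X_pow, coeff_X_pow]

theorem SS_odd (k : ℕ) (ρ v : ℕ → ℤ) (i : ℕ) (hi : i < k) :
    (SS k ρ v).coeff (2 * i + 5) = -2 * ρ i := by
  unfold SS
  simp only [coeff_add, finsetSum_coeff, term_coeff]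
  have e1 : ∀ j, 2 * ρ j * ((if 2 * i + 5 = 3 then 1 else 0) -
      (if 2 * i + 5 = 2 * j + 5 then 1 else 0)) = if j = i then -2 * ρ j else 0 := by
    intro j
    rw [if_neg (by omega : ¬ 2 * i + 5 = 3)]
    by_cases h : j = i
    · rw [if_pos (by omega), if_pos h]
      ring
    · rw [if_neg (by omega), if_neg h]
      ring
  have e2 : ∀ j, 2 * v j * ((if 2 * i + 5 = 2 then 1 else 0) -
      (if 2 * i + 5 = 2 * j + 4 then 1 else 0)) = 0 := by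
    intro j
    rw [if_neg (by omega), if_neg (by omega)]
    ring
  simp only [e1, e2]
  rw [sum_ite_eq' (range k) i, if_pos (by simpa using hi)]
  simp

theorem SS_even (k : ℕ) (ρ v : ℕ → ℤ) (i : ℕ) (hi : i < k + 1) :
    (SS k ρ v).coeff (2 * i + 4) = -2 * v i := by
  unfold SS
  simp only [coeff_add, finsetSum_coeff, term_coeff]
  have e1 : ∀ j, 2 * v j * ((if 2 * i + 4 = 2 then 1 else 0) -
      (if 2 * i + 4 = 2 * j + 4 then 1 else 0)) = if j = i then -2 * v j else 0 := by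
    intro j
    rw [if_neg (by omega : ¬ 2 * i + 4 = 2)]
    by_cases h : j = i
    · rw [if_pos (by omega), if_pos h]
      ring
    · rw [if_neg (by omega), if_neg h]
      ring
  have e2 : ∀ j, 2 * ρ j * ((if 2 * i + 4 = 3 then 1 else 0) -
      (if 2 * i + 4 = 2 * j + 5 then 1 else 0)) = 0 := by
    intro j
    rw [if_neg (by omega), if_neg (by omega)]
    ring
  simp only [e1, e2]
  rw [sum_ite_eq' (range (k + 1)) i, if_pos (by simpa using hi)]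
  simp

theorem SS_deg (k : ℕ) (ρ v : ℕ → ℤ) (m : ℕ) (hm : 2 * k + 4 < m) : (SS k ρ v).coeff m = 0 := by
  unfold SS
  simp only [coeff_add, finsetSum_coeff, term_coeff]
  rw [sum_eq_zero, sum_eq_zero]
  · simp
  · intro j hj
    rw [mem_range] at hj
    rw [if_neg (by omega), if_neg (by omega)]
    ring
  · intro j hj
    rw [mem_range] at hj
    rw [if_neg (by omega), if_neg (by omega)]
    ring

/-- The main part of the coefficients. -/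
noncomputable def tm (g : ℕ) (Γ Z : ℤ[X]) (b : ℕ → ℤ) (l : ℕ) : ℤ :=
  2 * ∑ j ∈ range (2 * g + 1), b j * b (j + l) +
    ∑ j ∈ range (2 * g + 1), (2 * (Mj g Γ j).coeff (l + 1)) * b j + (FF g Γ + Z).coeff (l + 2)

theorem coeffT (g : ℕ) (Γ Z S : ℤ[X]) (b : ℕ → ℤ) (A : ℤ) (hb : ∀ j, 2 * g < j → b j = 0)
    (l : ℕ) (hl : 2 ≤ l) :
    (FF g Γ + ∑ j ∈ range (2 * g + 1), C (b j) * (2 * (X * Mj g Γ j)) +
        X ^ 2 * QQ g b + (1 - X ^ 2) * C A + (Z + S)).coeff (l + 2) =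
      tm g Γ Z b l + S.coeff (l + 2) := by
  unfold tm
  simp only [coeff_add, finsetSum_coeff, coeff_C_mul, coeff_X_pow_mul, coeff_mul_C, coeff_sub,
    coeff_X_pow, coeff_one]
  rw [coeff_QQ g b hb l (by omega), if_neg (by omega), if_neg (by omega)]
  have e : ∀ j, b j * (2 * (X * Mj g Γ j)).coeff (l + 2) =
      2 * (Mj g Γ j).coeff (l + 1) * b j := by
    intro j
    have : (2 : ℤ[X]) = C 2 := by simp
    rw [this, coeff_C_mul, show l + 2 = (l + 1) + 1 from rfl, coeff_X_mul]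
    ring
  rw [sum_congr rfl fun j _ => e j]
  ring

theorem tm_deg (g : ℕ) (hg : 1 ≤ g) (Γ Z : ℤ[X]) (b : ℕ → ℤ) (hb : ∀ j, 2 * g < j → b j = 0)
    (hΓ : Γ.natDegree ≤ g) (hZ : Z.natDegree ≤ 2 * g + 2) (l : ℕ) (hl : 2 * g < l) :
    tm g Γ Z b l = 0 := by
  unfold tm
  have e1 : ∑ j ∈ range (2 * g + 1), b j * b (j + l) = 0 :=
    sum_eq_zero fun j _ => by rw [hb (j + l) (by omega), mul_zero]
  have e2 : ∑ j ∈ range (2 * g + 1), (2 * (Mj g Γ j).coeff (l + 1)) * b j = 0 := by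
    refine sum_eq_zero fun j hj => ?_
    rw [mem_range] at hj
    rw [coeff_eq_zero_of_natDegree_lt (lt_of_le_of_lt (deg_Mj g Γ hΓ j hj) (by omega))]
    ring
  have e3 : (FF g Γ + Z).coeff (l + 2) = 0 := by
    rw [coeff_add, coeff_eq_zero_of_natDegree_lt (lt_of_le_of_lt (deg_FF g Γ hΓ hg) (by omega)),
      coeff_eq_zero_of_natDegree_lt (lt_of_le_of_lt hZ (by omega))]
    ring
  rw [e1, e2, e3]
  ring

theorem two_coeffs (P : ℤ[X]) (h0 : P.coeff 0 = 0) (h1 : P.coeff 1 = 0)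
    (h4 : ∀ k, 4 ≤ k → P.coeff k = 0) (e1 : P.eval 1 = 0) (e2 : P.eval (-1) = 0) : P = 0 := by
  have hP : P = C (P.coeff 2) * X ^ 2 + C (P.coeff 3) * X ^ 3 := by
    ext k
    simp only [coeff_add, coeff_C_mul, coeff_X_pow]
    rcases Nat.lt_or_ge k 4 with hk | hk
    · interval_cases k
      · simp [h0]
      · simp [h1]
      · simp
      · simp
    · rw [h4 k hk, if_neg (by omega), if_neg (by omega)]
      simp
  rw [hP] at e1 e2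
  simp only [eval_add, eval_mul, eval_C, eval_pow, eval_X] at e1 e2
  have h2 : P.coeff 2 = 0 := by linarith
  have h3 : P.coeff 3 = 0 := by linarith
  rw [hP, h2, h3]
  simp

theorem par (P : ℤ[X]) : ∃ c, P.eval 1 = P.eval (-1) + 2 * c := by
  obtain ⟨c, hc⟩ := sub_dvd_eval_sub (1 : ℤ) (-1) P
  exact ⟨c, by linarith⟩

theorem coeffs_T01 {γ σ : ℤ[X]} (h : Fo γ σ) :
    ((1 + X * γ) ^ 2 + (1 - X ^ 2) * σ).coeff 0 = (1 + X * γ).eval 1 ∧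
    ((1 + X * γ) ^ 2 + (1 - X ^ 2) * σ).coeff 1 = 2 * ((1 + X * γ).eval 1 - 1) := by
  have e : (1 + X * γ) ^ 2 + (1 - X ^ 2) * σ = 1 + σ + X * (2 * γ + X * (γ ^ 2 - σ)) := by ring
  have i0 := h.inv0
  have i1 := h.inv1
  constructor
  · rw [e]
    simp [i0]
  · rw [e, coeff_add, coeff_add, coeff_X_mul]
    simp [coeff_one]
    linarith

theorem aux1 (a b x y Y : ℤ) (hY : 1 ≤ Y) (hx : a ≤ x) (hy : b ≤ y) (hx0 : 0 ≤ x) :
    a + Y * b ≤ (x + y) * Y := by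
  have h1 : Y * b ≤ Y * y := mul_le_mul_of_nonneg_left hy (by linarith)
  have h2 : x * 1 ≤ x * Y := mul_le_mul_of_nonneg_left hY hx0
  linarith

theorem aux2 (a b c x y z Y : ℤ) (hY : 1 ≤ Y) (hx : |a| ≤ x) (hy : |b| ≤ y) (hz : |c| ≤ z) :
    |a + Y * b + Y ^ 2 * c| ≤ (x + y + z) * Y ^ 2 := by
  have hx0 := (abs_nonneg a).trans hx
  have hy0 := (abs_nonneg b).trans hy
  have hY2 : Y ≤ Y ^ 2 := by nlinarith
  have h1 : x * 1 ≤ x * Y ^ 2 := mul_le_mul_of_nonneg_left (by linarith) hx0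
  have h2 : |Y * b| ≤ y * Y ^ 2 := by
    rw [abs_mul, abs_of_nonneg (by linarith : 0 ≤ Y), mul_comm]
    exact mul_le_mul hy hY2 (by linarith) hy0
  have h3 : |Y ^ 2 * c| ≤ z * Y ^ 2 := by
    rw [abs_mul, abs_of_nonneg (by positivity : 0 ≤ Y ^ 2), mul_comm]
    exact mul_le_mul_of_nonneg_right hz (by positivity)
  have h4 := abs_add_three a (Y * b) (Y ^ 2 * c)
  linarith

theorem consts (g : ℕ) (Γ₀ Γ₁ Z₀ Z₁ Z₂ : ℤ[X]) : ∃ K : ℤ, 1 ≤ K ∧ ∀ Y : ℕ, 1 ≤ Y →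
    (∀ k, 0 ≤ (Γ₀ + (Y : ℤ[X]) * Γ₁).coeff k) →
    (2 * g + 1) + (Γ₀ + (Y : ℤ[X]) * Γ₁).eval 1 ≤ K * Y ∧
    |(-1) ^ g * (Γ₀ + (Y : ℤ[X]) * Γ₁).eval (-1)| ≤ K * Y ∧
    ∀ l, l ≤ 2 * g → |(FF g (Γ₀ + (Y : ℤ[X]) * Γ₁) +
      (Z₀ + (Y : ℤ[X]) * Z₁ + (Y : ℤ[X]) ^ 2 * Z₂)).coeff (l + 2)| ≤ K * (Y : ℤ) ^ 2 := by
  obtain ⟨C₂, hC₂⟩ : ∃ C₂ : ℤ, ∀ m ∈ range (2 * g + 3),
      |Z₀.coeff m| + |Z₁.coeff m| + |Z₂.coeff m| ≤ C₂ :=
    ⟨∑ m ∈ range (2 * g + 3), (|Z₀.coeff m| + |Z₁.coeff m| + |Z₂.coeff m|), fun m hm =>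
      single_le_sum (f := fun m => |Z₀.coeff m| + |Z₁.coeff m| + |Z₂.coeff m|)
          (fun i _ => by positivity) hm⟩
  have hC₂0 : 0 ≤ C₂ := le_trans (by positivity) (hC₂ 0 (by simp))
  obtain ⟨x, hx⟩ : ∃ x : ℤ, x = (2 * g + 1) + |Γ₀.eval 1| := ⟨_, rfl⟩
  obtain ⟨y, hy⟩ : ∃ y : ℤ, y = |Γ₁.eval 1| := ⟨_, rfl⟩
  obtain ⟨x', hx'⟩ : ∃ x : ℤ, x = |Γ₀.eval (-1)| := ⟨_, rfl⟩
  obtain ⟨y', hy'⟩ : ∃ y : ℤ, y = |Γ₁.eval (-1)| := ⟨_, rfl⟩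
  have hx1 : 1 ≤ x := by
    have : (0 : ℤ) ≤ g := by positivity
    have := abs_nonneg (Γ₀.eval 1)
    linarith
  have hy1 : 0 ≤ y := by rw [hy]; exact abs_nonneg _
  have hx1' : 0 ≤ x' := by rw [hx']; exact abs_nonneg _
  have hy1' : 0 ≤ y' := by rw [hy']; exact abs_nonneg _
  have hsq : 0 ≤ (x + y) ^ 2 := by positivity
  refine ⟨x + y + (x' + y') + (x + y) ^ 2 + C₂, by linarith, fun Y hY hnn => ?_⟩
  have hYC : (Y : ℤ[X]) = C (Y : ℤ) := by simp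
  have hYz : (1 : ℤ) ≤ Y := by exact_mod_cast hY
  have eΓ1 : (Γ₀ + (Y : ℤ[X]) * Γ₁).eval 1 = Γ₀.eval 1 + Y * Γ₁.eval 1 := by
    rw [hYC]
    simp
  have eΓm : (Γ₀ + (Y : ℤ[X]) * Γ₁).eval (-1) = Γ₀.eval (-1) + Y * Γ₁.eval (-1) := by
    rw [hYC]
    simp
  have hG1 : 0 ≤ (Γ₀ + (Y : ℤ[X]) * Γ₁).eval 1 := (hnn 0).trans (coeff_le_eval hnn 0)
  have hC1Y : (2 * g + 1) + (Γ₀ + (Y : ℤ[X]) * Γ₁).eval 1 ≤ (x + y) * Y := by
    rw [eΓ1, ← add_assoc]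
    exact aux1 _ _ _ _ _ hYz (by rw [hx]; linarith [le_abs_self (Γ₀.eval 1)])
      (by rw [hy]; exact le_abs_self _) (by linarith)
  have hY0 : (0 : ℤ) ≤ Y := by linarith
  refine ⟨hC1Y.trans (mul_le_mul_of_nonneg_right (by linarith) hY0), ?_, fun l hl => ?_⟩
  · rw [abs_mul, abs_pow, abs_neg, abs_one, one_pow, one_mul, eΓm]
    have h1 := abs_add_le (Γ₀.eval (-1)) (Y * Γ₁.eval (-1))
    rw [abs_mul, abs_of_nonneg hY0] at h1
    have h2 := aux1 (|Γ₀.eval (-1)|) (|Γ₁.eval (-1)|) x' y' Y hYz hx'.ge hy'.ge hx1'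
    exact (h1.trans h2).trans (mul_le_mul_of_nonneg_right (by linarith) hY0)
  · rw [coeff_add]
    refine (abs_add_le _ _).trans ?_
    have h1 : |(FF g (Γ₀ + (Y : ℤ[X]) * Γ₁)).coeff (l + 2)| ≤ ((x + y) * Y) ^ 2 := by
      rw [abs_of_nonneg (nn_FF g _ hnn _)]
      refine (coeff_le_eval (nn_FF g _ hnn) _).trans ?_
      rw [eval_FF]
      exact pow_le_pow_left₀ (by positivity) hC1Y 2
    have h2 : |(Z₀ + (Y : ℤ[X]) * Z₁ + (Y : ℤ[X]) ^ 2 * Z₂).coeff (l + 2)| ≤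
        C₂ * (Y : ℤ) ^ 2 := by
      have e : (Z₀ + (Y : ℤ[X]) * Z₁ + (Y : ℤ[X]) ^ 2 * Z₂).coeff (l + 2) =
          Z₀.coeff (l + 2) + Y * Z₁.coeff (l + 2) + (Y : ℤ) ^ 2 * Z₂.coeff (l + 2) := by
        rw [hYC, ← C_pow]
        simp only [coeff_add, coeff_C_mul]
      rw [e]
      exact (aux2 _ _ _ _ _ _ _ hYz le_rfl le_rfl le_rfl).trans
        (mul_le_mul_of_nonneg_right (hC₂ _ (by rw [mem_range]; omega)) (by positivity))
    have h3 : (0 : ℤ) ≤ (Y : ℤ) ^ 2 := by positivity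
    have h4 : (0 : ℤ) ≤ (x + y + (x' + y')) * (Y : ℤ) ^ 2 := mul_nonneg (by linarith) h3
    have h5 : ((x + y) * Y) ^ 2 = (x + y) ^ 2 * (Y : ℤ) ^ 2 := by ring
    rw [h5] at h1
    have h6 : (x + y + (x' + y') + (x + y) ^ 2 + C₂) * (Y : ℤ) ^ 2 =
      (x + y + (x' + y')) * (Y : ℤ) ^ 2 + (x + y) ^ 2 * (Y : ℤ) ^ 2 + C₂ * (Y : ℤ) ^ 2 := by ring
    rw [h6]
    linarith

/-- The two class sizes. -/
theorem classes (g : ℕ) (Γ : ℤ[X]) (Y : ℤ) : ∃ A₀ A₁ : ℤ,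
    A₀ + A₁ = Y ^ 2 - (2 * g + 1) - Γ.eval 1 ∧ A₀ - A₁ = 1 - (-1) ^ g * Γ.eval (-1) - Y := by
  obtain ⟨c, hc⟩ := par Γ
  obtain ⟨d, hd⟩ : ∃ d : ℤ, (-1) ^ g * Γ.eval (-1) = Γ.eval (-1) + 2 * d := by
    rcases neg_one_pow_eq_or ℤ g with h | h
    · exact ⟨0, by rw [h]; ring⟩
    · exact ⟨-Γ.eval (-1), by rw [h]; ring⟩
  obtain ⟨e, he⟩ : ∃ e : ℤ, Y ^ 2 - Y = 2 * e := by
    obtain ⟨e, he⟩ := Int.even_mul_pred_self Y
    exact ⟨e, by linarith⟩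
  refine ⟨e - g - Γ.eval (-1) - c - d, e + Y - g - 1 - c + d, ?_, ?_⟩
  · rw [hc]
    linarith
  · rw [hd]
    linarith

end Pool.Agent.H37.WR
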