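import Pool.Agent.H37.WR.Core

/-!
# The final assembly
-/

namespace Pool.Agent.H37.WR

open Polynomial Finset

theorem finish (g : ℕ) (hg : 1 ≤ g) (Γ Z W : ℤ[X]) (Y : ℕ) (hY : 0 < Y) (dΓ : Γ.natDegree ≤ g)
    (dZ : Z.natDegree ≤ 2 * g + 2)
    (hgad : ∀ ρ v : ℕ → ℤ, (∀ i < g - 1, 0 ≤ ρ i ∧ ρ i < 4 * (Y : ℤ) ^ 2) →
      (∀ i < g - 1 + 1, 68 * (Y : ℤ) ^ 2 ≤ v i ∧ v i ≤ 76 * (Y : ℤ) ^ 2) →
      ∃ σ : ℤ[X], Fo Γ σ ∧ (1 - X ^ 2) * σ = Z + SS (g - 1) ρ v)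
    (w0 : W.coeff 0 = 0) (w1 : W.coeff 1 = (Y : ℤ) ^ 2 - 1)
    (wd : ∀ k, 2 * g + 2 < k → W.coeff k = 0)
    (we1 : 2 * W.eval 1 = (Y : ℤ) ^ 2 * ((Y : ℤ) ^ 2 - 1)) (wem : W.eval (-1) = 0)
    (b : ℕ → ℕ) (hb0 : ∀ j, 2 * g < j → (b j : ℤ) = 0)
    (hsum : ∑ j ∈ range (2 * g + 1), (b j : ℤ) = (Y : ℤ) ^ 2 - (2 * g + 1) - Γ.eval 1)
    (halt : ∑ j ∈ range (2 * g + 1), (-1) ^ j * (b j : ℤ) = 1 - (-1) ^ g * Γ.eval (-1) - Y)
    (hE : ∀ l, 2 ≤ l → l ≤ 2 * g → |tm g Γ Z (fun j => (b j : ℤ)) l -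
      (2 * W.coeff (l + 2) + (if l % 2 = 0 then 144 else 4) * (Y : ℤ) ^ 2)| ≤ 2 * (Y : ℤ) ^ 2) :
    ∃ γ σ : ℤ[X], Fo γ σ ∧ (1 + X * γ) ^ 2 + (1 - X ^ 2) * σ = C ((Y : ℤ) ^ 2) + 2 * W ∧
      (1 + X * γ).eval 1 = (Y : ℤ) ^ 2 := by
  have hYY : (0 : ℤ) < (Y : ℤ) ^ 2 := by positivity
  -- evenness
  obtain ⟨σ0, hF0, hσ0⟩ := hgad (fun _ => 0) (fun _ => 70 * (Y : ℤ) ^ 2)
    (fun i _ => ⟨le_rfl, by linarith⟩) (fun i _ => ⟨by linarith, by linarith⟩)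
  obtain ⟨γ0, σ0', F0, -, -, hT0⟩ := assemble g Γ σ0 hF0 b
  obtain ⟨W0, hW0⟩ := F0.even
  rw [hσ0] at hT0
  have hev : ∀ l, 2 ≤ l → l ≤ 2 * g → tm g Γ Z (fun j => (b j : ℤ)) l =
      2 * (tm g Γ Z (fun j => (b j : ℤ)) l / 2) := by
    intro l hl hl2
    have h1 := coeffT g Γ Z (SS (g - 1) (fun _ => 0) (fun _ => 70 * (Y : ℤ) ^ 2))
      (fun j => (b j : ℤ)) (∑ j ∈ range (2 * g + 1), (b j : ℤ)) hb0 l hl
    rw [← hT0, hW0] at h1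
    have h2 : (C (γ0.eval 1 + 1) + 2 * W0).coeff (l + 2) = 2 * W0.coeff (l + 2) := by
      have : (2 : ℤ[X]) = C 2 := by simp
      rw [coeff_add, this, coeff_C_mul, coeff_C, if_neg (by omega), zero_add]
    rw [h2] at h1
    obtain ⟨c, hc⟩ : ∃ c : ℤ, (SS (g - 1) (fun _ => 0) (fun _ => 70 * (Y : ℤ) ^ 2)).coeff (l + 2) =
        2 * c := by
      rcases Nat.even_or_odd' l with ⟨m, hm | hm⟩
      · obtain ⟨i, rfl⟩ : ∃ i, m = i + 1 := ⟨m - 1, by omega⟩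
        have e : l + 2 = 2 * i + 4 := by omega
        rw [e, SS_even _ _ _ _ (by omega)]
        exact ⟨-(70 * (Y : ℤ) ^ 2), by ring⟩
      · obtain ⟨i, rfl⟩ : ∃ i, m = i + 1 := ⟨m - 1, by omega⟩
        have e : l + 2 = 2 * i + 5 := by omega
        rw [e, SS_odd _ _ _ _ (by omega)]
        exact ⟨0, by ring⟩
    rw [hc] at h1
    omega
  set m : ℕ → ℤ := fun l => tm g Γ Z (fun j => (b j : ℤ)) l / 2 with hm
  -- the gadget parameters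
  have hρ : ∀ i < g - 1, 0 ≤ m (2 * i + 3) - W.coeff (2 * i + 5) ∧
      m (2 * i + 3) - W.coeff (2 * i + 5) < 4 * (Y : ℤ) ^ 2 := by
    intro i hi
    have h1 := hE (2 * i + 3) (by omega) (by omega)
    have h2 := hev (2 * i + 3) (by omega) (by omega)
    rw [if_neg (by omega), show 2 * i + 3 + 2 = 2 * i + 5 from rfl, abs_le] at h1
    simp only [hm]
    constructor <;> linarith
  have hv : ∀ i < g - 1 + 1, 68 * (Y : ℤ) ^ 2 ≤ m (2 * i + 2) - W.coeff (2 * i + 4) ∧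
      m (2 * i + 2) - W.coeff (2 * i + 4) ≤ 76 * (Y : ℤ) ^ 2 := by
    intro i hi
    have h1 := hE (2 * i + 2) (by omega) (by omega)
    have h2 := hev (2 * i + 2) (by omega) (by omega)
    rw [if_pos (by omega), show 2 * i + 2 + 2 = 2 * i + 4 from rfl, abs_le] at h1
    simp only [hm]
    constructor <;> linarith
  obtain ⟨σ1, hF1, hσ1⟩ := hgad (fun i => m (2 * i + 3) - W.coeff (2 * i + 5))
    (fun i => m (2 * i + 2) - W.coeff (2 * i + 4)) hρ hv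
  obtain ⟨γ, σ, F, hL1, hLm, hT⟩ := assemble g Γ σ1 hF1 b
  rw [hσ1] at hT
  have hL1' : (1 + X * γ).eval 1 = (Y : ℤ) ^ 2 := by
    rw [hL1, hsum]
    ring
  have hLm' : (1 + X * γ).eval (-1) = (Y : ℤ) := by
    rw [hLm, halt]
    ring
  refine ⟨γ, σ, F, ?_, hL1'⟩
  obtain ⟨t0, t1⟩ := coeffs_T01 F
  rw [hL1'] at t0 t1
  have te1 : ((1 + X * γ) ^ 2 + (1 - X ^ 2) * σ).eval 1 = (Y : ℤ) ^ 4 := by
    have : ((1 + X * γ) ^ 2 + (1 - X ^ 2) * σ).eval 1 = ((1 + X * γ).eval 1) ^ 2 := by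
      simp
    rw [this, hL1']
    ring
  have tem : ((1 + X * γ) ^ 2 + (1 - X ^ 2) * σ).eval (-1) = (Y : ℤ) ^ 2 := by
    have : ((1 + X * γ) ^ 2 + (1 - X ^ 2) * σ).eval (-1) = ((1 + X * γ).eval (-1)) ^ 2 := by
      simp
    rw [this, hLm']
  have tk : ∀ k, 4 ≤ k → ((1 + X * γ) ^ 2 + (1 - X ^ 2) * σ).coeff k = 2 * W.coeff k := by
    intro k hk
    obtain ⟨l, rfl⟩ : ∃ l, k = l + 2 := ⟨k - 2, by omega⟩
    rw [hT, coeffT g Γ Z _ (fun j => (b j : ℤ)) _ hb0 l (by omega)]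
    by_cases hl : l ≤ 2 * g
    · rw [hev l (by omega) hl]
      rcases Nat.even_or_odd' l with ⟨i, hi | hi⟩
      · obtain ⟨j, rfl⟩ : ∃ j, i = j + 1 := ⟨i - 1, by omega⟩
        have e : l = 2 * j + 2 := by omega
        subst e
        rw [show 2 * j + 2 + 2 = 2 * j + 4 from rfl, SS_even _ _ _ _ (by omega)]
        simp only [hm]
        ring
      · obtain ⟨j, rfl⟩ : ∃ j, i = j + 1 := ⟨i - 1, by omega⟩
        have e : l = 2 * j + 3 := by omega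
        subst e
        rw [show 2 * j + 3 + 2 = 2 * j + 5 from rfl, SS_odd _ _ _ _ (by omega)]
        simp only [hm]
        ring
    · rw [tm_deg g hg Γ Z _ hb0 dΓ dZ l (by omega), SS_deg _ _ _ _ (by omega),
        wd _ (by omega)]
      ring
  have e2 : (2 : ℤ[X]) = C 2 := by simp
  have hz : (1 + X * γ) ^ 2 + (1 - X ^ 2) * σ - (C ((Y : ℤ) ^ 2) + 2 * W) = 0 := by
    apply two_coeffs
    · rw [coeff_sub, t0, e2, coeff_add, coeff_C_mul, w0, coeff_C_zero]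
      ring
    · rw [coeff_sub, t1, e2, coeff_add, coeff_C_mul, w1, coeff_C, if_neg (by norm_num)]
      ring
    · intro k hk
      rw [coeff_sub, tk k hk, e2, coeff_add, coeff_C_mul, coeff_C, if_neg (by omega)]
      ring
    · rw [eval_sub, te1, e2, eval_add, eval_mul, eval_C, eval_C, we1]
      ring
    · rw [eval_sub, tem, e2, eval_add, eval_mul, eval_C, eval_C, wem]
      ring
  exact sub_eq_zero.1 hz

theorem core (g : ℕ) (hg : 1 ≤ g) : ∃ (γ σ W : ℤ[X]), Fo γ σ ∧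
    (1 + X * γ) ^ 2 + (1 - X ^ 2) * σ = C ((1 + X * γ).eval 1) + 2 * W ∧
    0 < W.coeff (2 * g + 2) ∧ (∀ k, 2 * g + 2 < k → W.coeff k = 0) ∧
    ∀ z : ℂ, aeval z W = 0 → ∃ q : ℚ, z = q := by
  obtain ⟨Γ₀, Γ₁, Z₀, Z₁, Z₂, dΓ₀, dΓ₁, dZ₀, dZ₁, dZ₂, hgad⟩ := allGadgets (g - 1)
  obtain ⟨R, hR, htar⟩ := target (2 * g - 1) (by omega)
  obtain ⟨K, hK1, hK⟩ := consts g Γ₀ Γ₁ Z₀ Z₁ Z₂
  obtain ⟨Y, hNY, W, w0, w1, wd, we1, wem, wr, w3, wn, wt, wz⟩ :=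
    htar (2000000 * R * K * 11 ^ (2 * g + 1)).toNat
  have hY : 2000000 * R * K * 11 ^ (2 * g + 1) ≤ (Y : ℤ) := by
    have := Int.self_le_toNat (2000000 * R * K * 11 ^ (2 * g + 1))
    have h2 : ((2000000 * R * K * 11 ^ (2 * g + 1)).toNat : ℤ) ≤ Y := by exact_mod_cast hNY
    linarith
  have hY0 : (0 : ℤ) < Y := lt_of_lt_of_le (by positivity) hY
  have hY1 : 1 ≤ Y := by exact_mod_cast hY0
  have hYY : (0 : ℤ) < (Y : ℤ) ^ 2 := by positivity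
  obtain ⟨σ0, hF0, -⟩ := hgad Y (fun _ => 0) (fun _ => 70 * (Y : ℤ) ^ 2) hY1
    (fun i _ => ⟨le_rfl, by linarith⟩) (fun i _ => ⟨by linarith, by linarith⟩)
  have hnn := hF0.nonneg
  obtain ⟨hK2, hK3, hK4⟩ := hK Y hY1 hnn
  have hYC : (Y : ℤ[X]) = C (Y : ℤ) := by simp
  have dΓ : (Γ₀ + (Y : ℤ[X]) * Γ₁).natDegree ≤ g := by
    rw [hYC]
    refine (natDegree_add_le _ _).trans (max_le (dΓ₀.trans (by omega)) ?_)
    exact (natDegree_C_mul_le _ _).trans (dΓ₁.trans (by omega))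
  have dZ : (Z₀ + (Y : ℤ[X]) * Z₁ + (Y : ℤ[X]) ^ 2 * Z₂).natDegree ≤ 2 * g + 2 := by
    rw [hYC, ← C_pow]
    refine (natDegree_add_le _ _).trans (max_le ((natDegree_add_le _ _).trans (max_le
      (dZ₀.trans (by omega)) ?_)) ?_)
    · exact (natDegree_C_mul_le _ _).trans (dZ₁.trans (by omega))
    · exact (natDegree_C_mul_le _ _).trans (dZ₂.trans (by omega))
  have hgad' := hgad Y
  generalize Γ₀ + (Y : ℤ[X]) * Γ₁ = Γ at *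
  generalize Z₀ + (Y : ℤ[X]) * Z₁ + (Y : ℤ[X]) ^ 2 * Z₂ = Z at *
  have hG1 : 0 ≤ Γ.eval 1 := (hnn 0).trans (coeff_le_eval hnn 0)
  obtain ⟨A₀, A₁, hA, hA'⟩ := classes g Γ Y
  have lam0 : ∀ l j, 0 ≤ 2 * (Mj g Γ j).coeff (l + 1) := fun l j =>
    mul_nonneg (by norm_num) (nn_Mj g Γ hnn j _)
  have lam1 : ∀ l j, 2 * (Mj g Γ j).coeff (l + 1) ≤ 2 * ((2 * g + 1) + Γ.eval 1) := by
    intro l j
    have := coeff_le_eval (nn_Mj g Γ hnn j) (l + 1)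
    rw [eval_Mj] at this
    linarith
  have ett : 2 * g - 1 + 3 = 2 * g + 2 := by omega
  rw [ett] at wt wd
  have H := hyp_ok g hg (fun l j => 2 * (Mj g Γ j).coeff (l + 1))
    (fun l => (FF g Γ + Z).coeff (l + 2)) (fun k => W.coeff k) Y R K (Γ.eval 1)
    ((-1) ^ g * Γ.eval (-1)) A₀ A₁ hR hK1 hY hG1 hK2 hK3 hA hA' lam0 lam1 hK4 wr w3 wn wt
  obtain ⟨a, B, hE⟩ := numeric H
  choose b hb using fun j => Int.eq_ofNat_of_zero_le (B.nonneg j)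
  have hab : a = fun j => (b j : ℤ) := funext hb
  subst hab
  obtain ⟨γ, σ, F, hT, hL⟩ := finish g hg Γ Z W Y hY1 dΓ dZ
    (fun ρ v h1 h2 => hgad' ρ v hY1 h1 h2) w0 w1 wd we1 wem b B.zero
    (by rw [B.sum, hA]) (by rw [B.alt, hA']) (fun l hl hl2 => hE l hl hl2)
  refine ⟨γ, σ, W, F, ?_, ?_, wd, wz⟩
  · rw [hT, hL]
  · have h1 : 0 < (Y : ℤ) ^ 4 := by positivity
    by_contra hc
    push Not at hc
    have : 16 * R * W.coeff (2 * g + 2) ≤ 0 :=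
      mul_nonpos_of_nonneg_of_nonpos (by linarith) hc
    linarith

end Pool.Agent.H37.WR
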