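import Pool.Agent.H37.WR.Tree

/-!
# Forests of rooted trees, by their polynomials

`Fo γ σ`: there is a finite multiset of rooted trees with total level polynomial `γ` and with
`σ = ∑ v, (level polynomial of the subtree of v) ^ 2`, the sum over all vertices.
-/

namespace Pool.Agent.H37.WR

open Polynomial

inductive Fo : ℤ[X] → ℤ[X] → Prop
  | nil : Fo 0 0
  | cons {γ₁ σ₁ γ₂ σ₂ : ℤ[X]} : Fo γ₁ σ₁ → Fo γ₂ σ₂ →
      Fo ((1 + X * γ₁) + γ₂) ((1 + X * γ₁) ^ 2 + σ₁ + σ₂)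

theorem Fo.of_eq {γ σ γ' σ' : ℤ[X]} (h : Fo γ σ) (h1 : γ = γ') (h2 : σ = σ') : Fo γ' σ' := by
  subst h1 h2
  exact h

theorem Fo.add {γ σ γ' σ' : ℤ[X]} (h : Fo γ σ) (h' : Fo γ' σ') : Fo (γ + γ') (σ + σ') := by
  induction h with
  | nil => simpa using h'
  | cons h1 h2 ih1 ih2 => exact (Fo.cons h1 ih2).of_eq (by ring) (by ring)

theorem Fo.wrap {γ σ : ℤ[X]} (h : Fo γ σ) : Fo (1 + X * γ) ((1 + X * γ) ^ 2 + σ) :=
  (Fo.cons h Fo.nil).of_eq (by ring) (by ring)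

theorem Fo.leaves (m : ℕ) : Fo (m : ℤ[X]) (m : ℤ[X]) := by
  induction m with
  | zero => simpa using Fo.nil
  | succ m ih => exact (Fo.cons Fo.nil ih).of_eq (by push_cast; ring) (by push_cast; ring)

theorem Fo.tr {γ σ : ℤ[X]} (h : Fo γ σ) :
    Tr (1 + X * γ) ((1 + X * γ) ^ 2 + (1 - X ^ 2) * σ) := by
  induction h with
  | nil => simpa using Tr.pt
  | cons h1 h2 ih1 ih2 =>
    have := ih2.join ih1
    convert this using 1
    · ring
    · ring

theorem Fo.inv0 {γ σ : ℤ[X]} (h : Fo γ σ) : σ.coeff 0 = γ.eval 1 := by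
  induction h with
  | nil => simp
  | cons h1 h2 ih1 ih2 =>
    simp only [coeff_add, eval_add, eval_mul, eval_X, eval_one, one_mul]
    rw [ih1, ih2, pow_two, mul_coeff_zero]
    simp

theorem Fo.inv1 {γ σ : ℤ[X]} (h : Fo γ σ) : σ.coeff 1 + 2 * γ.coeff 0 = 2 * γ.eval 1 := by
  induction h with
  | nil => simp
  | @cons γ₁ σ₁ γ₂ σ₂ h1 h2 ih1 ih2 =>
    have e : ((1 + X * γ₁) ^ 2).coeff 1 = 2 * γ₁.coeff 0 := by
      have : (1 + X * γ₁) ^ 2 = 1 + X * (2 * γ₁ + X * γ₁ ^ 2) := by ring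
      rw [this, coeff_add, coeff_X_mul]
      simp [coeff_one]
    simp only [coeff_add, eval_add, eval_mul, eval_X, eval_one, one_mul, e]
    have : (X * γ₁).coeff 0 = 0 := by simp
    rw [this, coeff_one_zero]
    linarith

theorem Fo.nonneg {γ σ : ℤ[X]} (h : Fo γ σ) : ∀ k, 0 ≤ γ.coeff k := by
  induction h with
  | nil => simp
  | @cons γ₁ σ₁ γ₂ σ₂ h1 h2 ih1 ih2 =>
    intro k
    have e1 : 0 ≤ (1 : ℤ[X]).coeff k := by
      rw [coeff_one]
      split <;> simp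
    have e2 : 0 ≤ (X * γ₁).coeff k := by
      cases k with
      | zero => simp
      | succ k =>
        rw [coeff_X_mul]
        exact ih1 k
    simp only [coeff_add]
    have := ih2 k
    linarith

theorem Fo.even {γ σ : ℤ[X]} (h : Fo γ σ) :
    ∃ W : ℤ[X], (1 + X * γ) ^ 2 + (1 - X ^ 2) * σ = C (γ.eval 1 + 1) + 2 * W := by
  induction h with
  | nil => exact ⟨0, by simp⟩
  | @cons γ₁ σ₁ γ₂ σ₂ h1 h2 ih1 ih2 =>
    obtain ⟨W₁, e1⟩ := ih1
    obtain ⟨W₂, e2⟩ := ih2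
    refine ⟨W₁ + W₂ + X * (1 + X * γ₁) * (1 + X * γ₂), ?_⟩
    have : (1 + X * (1 + X * γ₁ + γ₂)) ^ 2 + (1 - X ^ 2) * ((1 + X * γ₁) ^ 2 + σ₁ + σ₂) =
        ((1 + X * γ₁) ^ 2 + (1 - X ^ 2) * σ₁) + ((1 + X * γ₂) ^ 2 + (1 - X ^ 2) * σ₂) +
          2 * (X * (1 + X * γ₁) * (1 + X * γ₂)) := by ring
    rw [this, e1, e2]
    simp only [eval_add, eval_mul, eval_X, eval_one, one_mul, C_add, C_1]
    ring

/-- The tree obtained from a path with vertices `0, …, k` and a forest attached at each vertex of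
the path. -/
theorem spine (φ ψ : ℕ → ℤ[X]) (h : ∀ i, Fo (φ i) (ψ i)) (k : ℕ) :
    ∃ γ σ : ℤ[X], Fo γ σ ∧
      1 + X * γ = ∑ i ∈ Finset.range (k + 1), X ^ (k - i) * (1 + X * φ i) ∧
      (1 + X * γ) ^ 2 + (1 - X ^ 2) * σ =
        ∑ j ∈ Finset.range (k + 1), ((1 + X * φ j) ^ 2 +
          2 * ∑ i ∈ Finset.range j, X ^ (j - i) * ((1 + X * φ i) * (1 + X * φ j))) +
        (1 - X ^ 2) * ∑ j ∈ Finset.range (k + 1), ψ j := by
  induction k with
  | zero =>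
    refine ⟨φ 0, ψ 0, h 0, ?_, ?_⟩
    · simp
    · simp
  | succ k ih =>
    obtain ⟨γ, σ, hF, h1, h2⟩ := ih
    refine ⟨φ (k + 1) + (1 + X * γ), ψ (k + 1) + ((1 + X * γ) ^ 2 + σ), (h (k + 1)).add hF.wrap,
      ?_, ?_⟩
    · rw [Finset.sum_range_succ, mul_add, h1, Finset.mul_sum]
      have : ∀ i ∈ Finset.range (k + 1), (X : ℤ[X]) * (X ^ (k - i) * (1 + X * φ i)) =
          X ^ (k + 1 - i) * (1 + X * φ i) := by
        intro i hi
        rw [Finset.mem_range] at hi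
        have e : k + 1 - i = (k - i) + 1 := by omega
        rw [e]
        ring
      rw [Finset.sum_congr rfl this]
      simp
      ring
    · rw [Finset.sum_range_succ, Finset.sum_range_succ _ (k + 1)]
      have e2 : ∑ i ∈ Finset.range (k + 1), X ^ (k + 1 - i) * ((1 + X * φ i) *
          (1 + X * φ (k + 1))) = X * (1 + X * γ) * (1 + X * φ (k + 1)) := by
        rw [h1, Finset.mul_sum, Finset.sum_mul]
        refine Finset.sum_congr rfl fun i hi => ?_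
        rw [Finset.mem_range] at hi
        have e : k + 1 - i = (k - i) + 1 := by omega
        rw [e]
        ring
      rw [e2]
      have e3 : (1 + X * (φ (k + 1) + (1 + X * γ))) ^ 2 +
          (1 - X ^ 2) * (ψ (k + 1) + ((1 + X * γ) ^ 2 + σ)) =
          ((1 + X * γ) ^ 2 + (1 - X ^ 2) * σ) + ((1 + X * φ (k + 1)) ^ 2 +
            2 * (X * (1 + X * γ) * (1 + X * φ (k + 1)))) + (1 - X ^ 2) * ψ (k + 1) := by ring
      rw [e3, h2]
      ring

end Pool.Agent.H37.WR
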