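import Mathlib

/-!
# A descent lemma for autocorrelation equations
-/

namespace Pool.Agent.H37.WR

open Finset

/-- Geometric sums. -/
theorem geo (c : ℤ) (x : ℕ → ℤ) (l d : ℕ)
    (h : ∀ m, l ≤ m → m < l + d → (c + 1) * x (m + 1) ≤ x m) :
    c * ∑ m ∈ Ico (l + 1) (l + d + 1), x m + x (l + d) ≤ x l := by
  induction d with
  | zero => simp
  | succ d ih =>
    have ih' := ih (fun m h1 h2 => h m h1 (by omega))
    have h3 := h (l + d) (by omega) (by omega)
    have e : l + (d + 1) + 1 = (l + d + 1) + 1 := by omega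
    rw [e, sum_Ico_succ_top (by omega), mul_add]
    have e2 : l + (d + 1) = l + d + 1 := by omega
    rw [e2]
    linarith

theorem pow_sum (a b : ℕ) : 10 * ∑ m ∈ Ico a b, (11 : ℤ) ^ m ≤ 11 ^ b := by
  induction b with
  | zero => simp
  | succ b ih =>
    by_cases hab : a ≤ b
    · rw [sum_Ico_succ_top hab, mul_add, pow_succ]
      linarith
    · rw [Ico_eq_empty (by omega)]
      simp

section

variable (h : ℕ) (lam : ℕ → ℕ → ℤ) (κ τ : ℕ → ℤ)

/-- The residual. -/
def E (l : ℕ) (a : ℕ → ℤ) : ℤ :=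
  2 * ∑ j ∈ range (h + 1), a j * a (j + l) + ∑ j ∈ range (h + 1), lam l j * a j + κ l - τ l

theorem sum_delta (f : ℕ → ℤ) {l : ℕ} (hl : l ≤ h) :
    ∑ j ∈ range (h + 1), f j * (if j = l then 1 else 0) = f l := by
  simp only [mul_ite, mul_one, mul_zero]
  rw [sum_ite_eq' (range (h + 1)) l f, if_pos (by simp; omega)]

/-- The change of the residual if a unit is moved from `p` to `l`. -/
theorem E_change (a : ℕ → ℤ) (s : ℤ) (hs : s ^ 2 = 1) (l p m : ℕ)
    (hl : l ≤ h) (hl2 : 2 ≤ l) (hp : p < 2) (hm : 2 ≤ m) :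
    E h lam κ τ m (fun j => a j + s * ((if j = l then 1 else 0) - (if j = p then 1 else 0))) =
      E h lam κ τ m a + 2 * (s * (a (l + m) - a (p + m) + (if m ≤ l then a (l - m) else 0)) -
        (if p + m = l then 1 else 0)) + s * (lam m l - lam m p) := by
  have hp' : p ≤ h := by omega
  unfold E
  have e1 : ∑ j ∈ range (h + 1), (a j + s * ((if j = l then 1 else 0) - (if j = p then 1 else 0))) *
      (a (j + m) + s * ((if j + m = l then 1 else 0) - (if j + m = p then 1 else 0))) =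
      ∑ j ∈ range (h + 1), a j * a (j + m) +
      s * (∑ j ∈ range (h + 1), a (j + m) * (if j = l then 1 else 0) -
        ∑ j ∈ range (h + 1), a (j + m) * (if j = p then 1 else 0)) +
      s * (∑ j ∈ range (h + 1), a j * (if j + m = l then 1 else 0) -
        ∑ j ∈ range (h + 1), a j * (if j + m = p then 1 else 0)) +
      s ^ 2 * (∑ j ∈ range (h + 1),
        ((if j + m = l then 1 else 0) - (if j + m = p then 1 else 0)) * (if j = l then 1 else 0) -
        ∑ j ∈ range (h + 1),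
        ((if j + m = l then 1 else 0) - (if j + m = p then 1 else 0)) *
          (if j = p then 1 else 0)) := by
    rw [← sum_sub_distrib, ← sum_sub_distrib, ← sum_sub_distrib, mul_sum, mul_sum, mul_sum,
      ← sum_add_distrib, ← sum_add_distrib, ← sum_add_distrib]
    refine sum_congr rfl fun j _ => ?_
    ring
  have e2 : ∑ j ∈ range (h + 1), lam m j * (a j + s * ((if j = l then 1 else 0) -
      (if j = p then 1 else 0))) = ∑ j ∈ range (h + 1), lam m j * a j +
      s * (∑ j ∈ range (h + 1), lam m j * (if j = l then 1 else 0) -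
        ∑ j ∈ range (h + 1), lam m j * (if j = p then 1 else 0)) := by
    rw [← sum_sub_distrib, mul_sum, ← sum_add_distrib]
    refine sum_congr rfl fun j _ => ?_
    ring
  have e3 : ∑ j ∈ range (h + 1), a j * (if j + m = l then 1 else 0) =
      (if m ≤ l then a (l - m) else 0) := by
    by_cases hml : m ≤ l
    · rw [if_pos hml]
      have : ∀ j ∈ range (h + 1), a j * (if j + m = l then (1 : ℤ) else 0) =
          a j * (if j = l - m then 1 else 0) := by
        intro j _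
        congr 1
        apply if_congr _ rfl rfl
        omega
      rw [sum_congr rfl this, sum_delta h a (by omega)]
    · rw [if_neg hml]
      refine sum_eq_zero fun j _ => ?_
      rw [if_neg (by omega), mul_zero]
  have e4 : ∑ j ∈ range (h + 1), a j * (if j + m = p then (1 : ℤ) else 0) = 0 := by
    refine sum_eq_zero fun j _ => ?_
    rw [if_neg (by omega), mul_zero]
  rw [e1, e2, e3, e4, sum_delta h _ hl, sum_delta h _ hp', sum_delta h _ hl, sum_delta h _ hp',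
    sum_delta h _ hl, sum_delta h _ hp', hs, if_neg (by omega : ¬ l + m = l),
    if_neg (by omega : ¬ l + m = p), if_neg (by omega : ¬ p + m = p)]
  ring

/-- The box. -/
structure Box (n A₀ A₁ : ℤ) (a : ℕ → ℤ) : Prop where
  nonneg : ∀ j, 0 ≤ a j
  zero : ∀ j, h < j → a j = 0
  le : ∀ j, 2 ≤ j → j ≤ h → n * a j ≤ 5 * τ j
  sum : ∑ j ∈ range (h + 1), a j = A₀ + A₁
  alt : ∑ j ∈ range (h + 1), (-1) ^ j * a j = A₀ - A₁

theorem split2 (hh : 2 ≤ h) (f : ℕ → ℤ) :
    ∑ j ∈ range (h + 1), f j = f 0 + f 1 + ∑ j ∈ Ico 2 (h + 1), f j := by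
  rw [range_eq_Ico, sum_eq_sum_Ico_succ_bot (by omega), sum_eq_sum_Ico_succ_bot (by omega)]
  ring

variable {h lam κ τ}
variable {n Λ A₀ A₁ : ℤ}

/-- The standing assumptions of the descent lemma. -/
structure Hyp (h : ℕ) (lam : ℕ → ℕ → ℤ) (κ τ : ℕ → ℤ) (n Λ A₀ A₁ : ℤ) : Prop where
  hh : 2 ≤ h
  hn : 100 ≤ n
  lam0 : ∀ l j, 0 ≤ lam l j
  lam1 : ∀ l j, lam l j ≤ Λ
  hA0 : 45 * n ≤ 100 * A₀
  hA1 : 45 * n ≤ 100 * A₁
  hA : A₀ + A₁ ≤ n
  ratio : ∀ l, 2 ≤ l → l < h → 1000 * τ (l + 1) ≤ τ l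
  top : 1000 * τ 2 ≤ n ^ 2
  botΛ : 100 * Λ * n ≤ τ h
  botn : 100 * n ≤ τ h
  hκ : ∀ l, 2 ≤ l → l ≤ h → 100 * |κ l| ≤ τ h
  hW : Λ * 11 ^ (h + 1) ≤ n

theorem Hyp.Λ0 (H : Hyp h lam κ τ n Λ A₀ A₁) : 0 ≤ Λ := (H.lam0 0 0).trans (H.lam1 0 0)

theorem Hyp.Λn (H : Hyp h lam κ τ n Λ A₀ A₁) : 100 * Λ ≤ n := by
  have h1 := H.hW
  have h0 := H.Λ0
  have h2 : (11 : ℤ) ^ 3 ≤ 11 ^ (h + 1) := pow_le_pow_right₀ (by norm_num) (by have := H.hh; omega)
  nlinarith

theorem Hyp.tau_ge' (H : Hyp h lam κ τ n Λ A₀ A₁) :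
    ∀ d l, 2 ≤ l → l + d = h → τ h ≤ τ l := by
  intro d
  induction d with
  | zero =>
    intro l _ hl
    have : l = h := by omega
    rw [this]
  | succ d ih =>
    intro l h2 hl
    have h1 := ih (l + 1) (by omega) (by omega)
    have h3 := H.ratio l h2 (by omega)
    have h4 := H.botn
    have h5 := H.hn
    linarith

theorem Hyp.tau_ge (H : Hyp h lam κ τ n Λ A₀ A₁) {l : ℕ} (h2 : 2 ≤ l) (hl : l ≤ h) : τ h ≤ τ l :=
  H.tau_ge' (h - l) l h2 (by omega)

theorem Hyp.tau_pos (H : Hyp h lam κ τ n Λ A₀ A₁) {l : ℕ} (h2 : 2 ≤ l) (hl : l ≤ h) : 0 < τ l := by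
  have h1 := H.tau_ge h2 hl
  have h4 := H.botn
  have h5 := H.hn
  linarith

theorem Hyp.tau_anti (H : Hyp h lam κ τ n Λ A₀ A₁) {l : ℕ} (h2 : 2 ≤ l) :
    ∀ d, l + d ≤ h → τ (l + d) ≤ τ l := by
  intro d
  induction d with
  | zero => intro _; simp
  | succ d ih =>
    intro hd
    have h1 := ih (by omega)
    have h3 := H.ratio (l + d) (by omega) (by omega)
    have h4 := H.tau_pos (l := l + d + 1) (by omega) (by omega)
    have e : l + (d + 1) = l + d + 1 := by omega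
    rw [e]
    linarith

theorem Hyp.tau_sum (H : Hyp h lam κ τ n Λ A₀ A₁) :
    999 * ∑ j ∈ Ico 2 (h + 1), τ j ≤ 1000 * τ 2 := by
  have hh := H.hh
  have h1 := geo 999 τ 2 (h - 2) (fun m h1 h2 => by
    have := H.ratio m (by omega) (by omega)
    linarith)
  have e : 2 + (h - 2) = h := by omega
  rw [e] at h1
  rw [sum_eq_sum_Ico_succ_bot (by omega)]
  have h2 := H.tau_pos (l := h) hh le_rfl
  linarith

theorem tail_sum (H : Hyp h lam κ τ n Λ A₀ A₁) {a : ℕ → ℤ} (B : Box h τ n A₀ A₁ a) :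
    100 * ∑ j ∈ Ico 2 (h + 1), a j ≤ n := by
  have h1 : n * ∑ j ∈ Ico 2 (h + 1), a j ≤ 5 * ∑ j ∈ Ico 2 (h + 1), τ j := by
    rw [mul_sum, mul_sum]
    refine sum_le_sum fun j hj => ?_
    rw [mem_Ico] at hj
    exact B.le j hj.1 (by omega)
  have h2 := H.tau_sum
  have h3 := H.top
  have hn := H.hn
  by_contra hc
  push Not at hc
  nlinarith

theorem tail_nonneg {a : ℕ → ℤ} (B : Box h τ n A₀ A₁ a) : 0 ≤ ∑ j ∈ Ico 2 (h + 1), a j :=
  sum_nonneg fun j _ => B.nonneg j

theorem a_small (H : Hyp h lam κ τ n Λ A₀ A₁) {a : ℕ → ℤ} (B : Box h τ n A₀ A₁ a) {j : ℕ}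
    (hj : 2 ≤ j) : 100 * a j ≤ n := by
  by_cases hjh : j ≤ h
  · have h1 := tail_sum H B
    have h2 : a j ≤ ∑ j ∈ Ico 2 (h + 1), a j :=
      single_le_sum (f := a) (fun i _ => B.nonneg i) (by rw [mem_Ico]; omega)
    linarith
  · rw [B.zero j (by omega)]
    have := H.hn
    linarith

theorem a01 (H : Hyp h lam κ τ n Λ A₀ A₁) {a : ℕ → ℤ} (B : Box h τ n A₀ A₁ a) :
    44 * n ≤ 100 * a 0 ∧ 100 * a 0 ≤ 55 * n ∧ 44 * n ≤ 100 * a 1 ∧ 100 * a 1 ≤ 55 * n := by
  have h1 := B.sum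
  have h2 := B.alt
  rw [split2 h H.hh] at h1 h2
  have h3 := tail_sum H B
  have h4 : |∑ j ∈ Ico 2 (h + 1), (-1) ^ j * a j| ≤ ∑ j ∈ Ico 2 (h + 1), a j := by
    refine (abs_sum_le_sum_abs _ _).trans (sum_le_sum fun j _ => ?_)
    rw [abs_mul, abs_pow, abs_neg, abs_one, one_pow, one_mul, abs_of_nonneg (B.nonneg j)]
  rw [abs_le] at h4
  have := H.hA0
  have := H.hA1
  have := H.hA
  simp only [pow_zero, one_mul, pow_one, neg_mul] at h2
  refine ⟨?_, ?_, ?_, ?_⟩ <;> linarith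

/-- The potential. -/
def Phi (h : ℕ) (lam : ℕ → ℕ → ℤ) (κ τ : ℕ → ℤ) (a : ℕ → ℤ) : ℤ :=
  ∑ m ∈ Ico 2 (h + 1), 11 ^ m * |E h lam κ τ m a|

theorem upper_ok (H : Hyp h lam κ τ n Λ A₀ A₁) {a : ℕ → ℤ} (B : Box h τ n A₀ A₁ a) {l : ℕ}
    (hl2 : 2 ≤ l) (hl : l ≤ h) (hE : E h lam κ τ l a < 0) : n * (a l + 1) ≤ 5 * τ l := by
  by_contra hc
  push Not at hc
  have hn := H.hn
  have h1 : a 0 * a l ≤ ∑ j ∈ range (h + 1), a j * a (j + l) := by
    have := single_le_sum (f := fun j => a j * a (j + l)) (s := range (h + 1))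
      (fun i _ => mul_nonneg (B.nonneg i) (B.nonneg _)) (mem_range.2 (by omega : 0 < h + 1))
    simpa using this
  have h2 : 0 ≤ ∑ j ∈ range (h + 1), lam l j * a j :=
    sum_nonneg fun j _ => mul_nonneg (H.lam0 _ _) (B.nonneg j)
  have h3 := H.hκ l hl2 hl
  have h4 := H.tau_ge hl2 hl
  have h5 := H.botn
  have h6 := (a01 H B).1
  have h7 := neg_abs_le (κ l)
  unfold E at hE
  have h8 : 44 * n * a l ≤ 100 * a 0 * a l := mul_le_mul_of_nonneg_right h6 (B.nonneg l)
  nlinarith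

theorem lower_ok (H : Hyp h lam κ τ n Λ A₀ A₁) {a : ℕ → ℤ} (B : Box h τ n A₀ A₁ a) {l : ℕ}
    (hl2 : 2 ≤ l) (hl : l ≤ h) (hE : 0 < E h lam κ τ l a) : 1 ≤ a l := by
  by_contra hc
  have ha : a l = 0 := by
    have := B.nonneg l
    omega
  have hn := H.hn
  have ht := H.tau_pos hl2 hl
  have hb : ∀ j, 1 ≤ j → n * (200 * a (j + l)) ≤ τ l := by
    intro j hj
    by_cases hjl : j + l ≤ h
    · have h1 := B.le (j + l) (by omega) hjl
      obtain ⟨d, rfl⟩ := Nat.exists_eq_add_of_le hj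
      have h2 := H.tau_anti (l := l + 1) (by omega) d (by omega)
      have h3 := H.ratio l hl2 (by omega)
      have e : 1 + d + l = l + 1 + d := by omega
      rw [e] at h1 ⊢
      linarith
    · rw [B.zero _ (by omega)]
      simp
      exact ht.le
  have h1 : 200 * (n * ∑ j ∈ range (h + 1), a j * a (j + l)) ≤
      τ l * (∑ j ∈ range (h + 1), a j) := by
    rw [mul_sum, mul_sum, mul_sum]
    refine sum_le_sum fun j _ => ?_
    rcases Nat.eq_zero_or_pos j with rfl | hj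
    · simp only [zero_add, ha, mul_zero]
      exact mul_nonneg ht.le (B.nonneg 0)
    · have h2 := mul_le_mul_of_nonneg_left (hb j hj) (B.nonneg j)
      nlinarith
  rw [B.sum] at h1
  have hA := H.hA
  have h2 : 200 * (n * ∑ j ∈ range (h + 1), a j * a (j + l)) ≤ τ l * n :=
    h1.trans (mul_le_mul_of_nonneg_left hA ht.le)
  have h3 : 200 * ∑ j ∈ range (h + 1), a j * a (j + l) ≤ τ l := by
    by_contra hc'
    push Not at hc'
    nlinarith
  have h4 : ∑ j ∈ range (h + 1), lam l j * a j ≤ Λ * n := by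
    have : ∑ j ∈ range (h + 1), lam l j * a j ≤ ∑ j ∈ range (h + 1), Λ * a j :=
      sum_le_sum fun j _ => mul_le_mul_of_nonneg_right (H.lam1 _ _) (B.nonneg j)
    rw [← mul_sum, B.sum] at this
    exact this.trans (mul_le_mul_of_nonneg_left hA H.Λ0)
  have h5 := H.botΛ
  have h6 := H.hκ l hl2 hl
  have h7 := le_abs_self (κ l)
  have h8 := H.tau_ge hl2 hl
  unfold E at hE
  linarith

/-- Moving one unit from `l % 2` to `l` (or back). -/
def mv (a : ℕ → ℤ) (s : ℤ) (l : ℕ) : ℕ → ℤ :=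
  fun j => a j + s * ((if j = l then 1 else 0) - (if j = l % 2 then 1 else 0))

theorem mv_box (H : Hyp h lam κ τ n Λ A₀ A₁) {a : ℕ → ℤ} (B : Box h τ n A₀ A₁ a) {l : ℕ}
    (hl2 : 2 ≤ l) (hl : l ≤ h) {s : ℤ} (hs : s = 1 ∨ s = -1)
    (hE : s * E h lam κ τ l a < 0) : Box h τ n A₀ A₁ (mv a s l) := by
  have hp : l % 2 < 2 := Nat.mod_lt _ (by norm_num)
  have hn := H.hn
  have h01 := a01 H B
  refine ⟨fun j => ?_, fun j hj => ?_, fun j hj2 hj => ?_, ?_, ?_⟩
  · unfold mv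
    by_cases hjl : j = l
    · subst hjl
      rw [if_pos rfl, if_neg (by omega)]
      rcases hs with rfl | rfl
      · have := B.nonneg j
        linarith
      · have := lower_ok H B hl2 hl (by linarith)
        linarith
    · rw [if_neg hjl]
      by_cases hjp : j = l % 2
      · rw [if_pos hjp]
        have : 44 ≤ a j := by
          have h2 : j = 0 ∨ j = 1 := by omega
          rcases h2 with rfl | rfl
          · linarith [h01.1]
          · linarith [h01.2.2.1]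
        rcases hs with rfl | rfl <;> linarith
      · rw [if_neg hjp]
        simpa using B.nonneg j
  · unfold mv
    rw [if_neg (by omega), if_neg (by omega), B.zero j hj]
    ring
  · unfold mv
    rw [if_neg (by omega : ¬ j = l % 2)]
    by_cases hjl : j = l
    · subst hjl
      rw [if_pos rfl]
      rcases hs with rfl | rfl
      · have := upper_ok H B hl2 hl (by linarith)
        linarith
      · have := B.le j hj2 hj
        linarith
    · rw [if_neg hjl]
      simpa using B.le j hj2 hj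
  · unfold mv
    have e : ∑ j ∈ range (h + 1), (a j + s * ((if j = l then 1 else 0) -
        (if j = l % 2 then 1 else 0))) = ∑ j ∈ range (h + 1), a j +
        s * (∑ j ∈ range (h + 1), (1 : ℤ) * (if j = l then 1 else 0) -
          ∑ j ∈ range (h + 1), (1 : ℤ) * (if j = l % 2 then 1 else 0)) := by
      rw [← sum_sub_distrib, mul_sum, ← sum_add_distrib]
      refine sum_congr rfl fun j _ => ?_
      ring
    rw [e, sum_delta h (fun _ => 1) hl, sum_delta h (fun _ => 1) (by omega), B.sum]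
    ring
  · unfold mv
    have e : ∑ j ∈ range (h + 1), (-1) ^ j * (a j + s * ((if j = l then 1 else 0) -
        (if j = l % 2 then 1 else 0))) = ∑ j ∈ range (h + 1), (-1) ^ j * a j +
        s * (∑ j ∈ range (h + 1), (-1 : ℤ) ^ j * (if j = l then 1 else 0) -
          ∑ j ∈ range (h + 1), (-1 : ℤ) ^ j * (if j = l % 2 then 1 else 0)) := by
      rw [← sum_sub_distrib, mul_sum, ← sum_add_distrib]
      refine sum_congr rfl fun j _ => ?_
      ring
    rw [e, sum_delta h (fun j => (-1) ^ j) hl, sum_delta h (fun j => (-1) ^ j) (by omega), B.alt,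
      ← neg_one_pow_eq_pow_mod_two]
    ring

theorem step_eq (H : Hyp h lam κ τ n Λ A₀ A₁) {a : ℕ → ℤ} (B : Box h τ n A₀ A₁ a) {l : ℕ}
    (hl2 : 2 ≤ l) (hl : l ≤ h) {s : ℤ} (hs : s = 1 ∨ s = -1)
    (hE : s * E h lam κ τ l a < -2 * n) :
    10 * |E h lam κ τ l (mv a s l)| ≤ 10 * |E h lam κ τ l a| - 7 * n := by
  have hp : l % 2 < 2 := Nat.mod_lt _ (by norm_num)
  have hn := H.hn
  have h01 := a01 H B
  have hΛ := H.Λn
  have hΛ0 := H.Λ0
  have e := E_change h lam κ τ a s (by rcases hs with rfl | rfl <;> norm_num) l (l % 2) l hl hl2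
    hp hl2
  rw [if_pos le_rfl, Nat.sub_self] at e
  have e' : E h lam κ τ l (mv a s l) = E h lam κ τ l a +
      2 * (s * (a (l + l) - a (l % 2 + l) + a 0) - if l % 2 + l = l then 1 else 0) +
      s * (lam l l - lam l (l % 2)) := e
  have h1 := a_small H B (j := l + l) (by omega)
  have h2 := a_small H B (j := l % 2 + l) (by omega)
  have h3 := B.nonneg (l + l)
  have h4 := B.nonneg (l % 2 + l)
  have h5 := H.lam0 l l
  have h6 := H.lam0 l (l % 2)
  have h7 := H.lam1 l l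
  have h8 := H.lam1 l (l % 2)
  have h9 : (0 : ℤ) ≤ (if l % 2 + l = l then 1 else 0) ∧
      (if l % 2 + l = l then (1 : ℤ) else 0) ≤ 1 := by split <;> simp
  generalize (if l % 2 + l = l then (1 : ℤ) else 0) = δ at e' h9
  rw [e']
  obtain ⟨h10, h11⟩ := h9
  obtain ⟨h12, h13, -, -⟩ := h01
  rcases hs with rfl | rfl
  · have hneg : E h lam κ τ l a < 0 := by linarith
    rw [abs_of_neg hneg, abs_of_neg (by linarith)]
    linarith
  · have hpos : 0 < E h lam κ τ l a := by linarith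
    rw [abs_of_pos hpos, abs_of_pos (by linarith)]
    linarith

theorem step_lt (H : Hyp h lam κ τ n Λ A₀ A₁) {a : ℕ → ℤ} (B : Box h τ n A₀ A₁ a) {l m : ℕ}
    (hl2 : 2 ≤ l) (hl : l ≤ h) {s : ℤ} (hs : s = 1 ∨ s = -1) (hm2 : 2 ≤ m) (hm : m < l) :
    10 * |E h lam κ τ m (mv a s l)| ≤ 10 * |E h lam κ τ m a| + 13 * n := by
  have hp : l % 2 < 2 := Nat.mod_lt _ (by norm_num)
  have hn := H.hn
  have h01 := a01 H B
  have hΛ := H.Λn
  have hΛ0 := H.Λ0
  have e := E_change h lam κ τ a s (by rcases hs with rfl | rfl <;> norm_num) l (l % 2) m hl hl2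
    hp hm2
  rw [if_pos hm.le] at e
  have e' : E h lam κ τ m (mv a s l) = E h lam κ τ m a +
      2 * (s * (a (l + m) - a (l % 2 + m) + a (l - m)) - if l % 2 + m = l then 1 else 0) +
      s * (lam m l - lam m (l % 2)) := e
  have h1 := a_small H B (j := l + m) (by omega)
  have h2 := a_small H B (j := l % 2 + m) (by omega)
  have h3 := B.nonneg (l + m)
  have h4 := B.nonneg (l % 2 + m)
  have h5 := H.lam0 m l
  have h6 := H.lam0 m (l % 2)
  have h7 := H.lam1 m l
  have h8 := H.lam1 m (l % 2)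
  have h9 : (0 : ℤ) ≤ (if l % 2 + m = l then 1 else 0) ∧
      (if l % 2 + m = l then (1 : ℤ) else 0) ≤ 1 := by split <;> simp
  have h14 : 100 * a (l - m) ≤ 55 * n := by
    by_cases h15 : l - m = 1
    · rw [h15]
      exact h01.2.2.2
    · have := a_small H B (j := l - m) (by omega)
      linarith
  have h16 := B.nonneg (l - m)
  generalize (if l % 2 + m = l then (1 : ℤ) else 0) = δ at e' h9
  rw [e']
  obtain ⟨h10, h11⟩ := h9
  have h17 := neg_abs_le (E h lam κ τ m a)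
  have h18 := le_abs_self (E h lam κ τ m a)
  have key : ∀ x y : ℤ, -y ≤ x → x ≤ y → |x| ≤ y := fun x y h1 h2 => abs_le.2 ⟨h1, h2⟩
  have : |10 * (E h lam κ τ m a + 2 * (s * (a (l + m) - a (l % 2 + m) + a (l - m)) - δ) +
      s * (lam m l - lam m (l % 2)))| ≤ 10 * |E h lam κ τ m a| + 13 * n := by
    apply key <;> rcases hs with rfl | rfl <;> linarith
  rw [abs_mul] at this
  simpa using this

theorem step_gt (H : Hyp h lam κ τ n Λ A₀ A₁) {a : ℕ → ℤ} (B : Box h τ n A₀ A₁ a) {l m : ℕ}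
    (hl2 : 2 ≤ l) (hl : l ≤ h) {s : ℤ} (hs : s = 1 ∨ s = -1) (hm2 : l < m) (hm : m ≤ h) :
    n * |E h lam κ τ m (mv a s l)| ≤ n * |E h lam κ τ m a| + (20 * τ m + n * Λ) := by
  have hp : l % 2 < 2 := Nat.mod_lt _ (by norm_num)
  have hn := H.hn
  have hΛ := H.Λn
  have hΛ0 := H.Λ0
  have e := E_change h lam κ τ a s (by rcases hs with rfl | rfl <;> norm_num) l (l % 2) m hl hl2
    hp (by omega)
  rw [if_neg (by omega), if_neg (by omega)] at e
  have e' : E h lam κ τ m (mv a s l) = E h lam κ τ m a +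
      2 * (s * (a (l + m) - a (l % 2 + m) + 0) - 0) +
      s * (lam m l - lam m (l % 2)) := e
  have hb : ∀ j, n * a (j + m) ≤ 5 * τ m := by
    intro j
    by_cases hjm : j + m ≤ h
    · have h1 := B.le (j + m) (by omega) hjm
      have h2 := H.tau_anti (l := m) (by omega) j (by omega)
      have e : j + m = m + j := by omega
      rw [e] at h1 ⊢
      linarith
    · rw [B.zero _ (by omega)]
      have := H.tau_pos (l := m) (by omega) hm
      linarith
  have h1 := hb l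
  have h2 := hb (l % 2)
  have h3 := B.nonneg (l + m)
  have h4 := B.nonneg (l % 2 + m)
  have h5 := H.lam0 m l
  have h6 := H.lam0 m (l % 2)
  have h7 := H.lam1 m l
  have h8 := H.lam1 m (l % 2)
  have h9 : |E h lam κ τ m (mv a s l)| ≤ |E h lam κ τ m a| + 2 * (a (l + m) + a (l % 2 + m)) + Λ := by
    rw [e']
    have h17 := neg_abs_le (E h lam κ τ m a)
    have h18 := le_abs_self (E h lam κ τ m a)
    have key : ∀ x y : ℤ, -y ≤ x → x ≤ y → |x| ≤ y := fun x y h1 h2 => abs_le.2 ⟨h1, h2⟩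
    apply key <;> rcases hs with rfl | rfl <;> linarith
  have h10 := mul_le_mul_of_nonneg_left h9 (by linarith : 0 ≤ n)
  linarith

theorem step (H : Hyp h lam κ τ n Λ A₀ A₁) {a : ℕ → ℤ} (B : Box h τ n A₀ A₁ a) {l : ℕ}
    (hl2 : 2 ≤ l) (hl : l ≤ h) (hE : 2 * n < |E h lam κ τ l a|) :
    ∃ a', Box h τ n A₀ A₁ a' ∧ Phi h lam κ τ a' < Phi h lam κ τ a := by
  have hn := H.hn
  obtain ⟨s, hs, hsE⟩ : ∃ s : ℤ, (s = 1 ∨ s = -1) ∧ s * E h lam κ τ l a < -2 * n := by
    rcases le_or_gt 0 (E h lam κ τ l a) with h0 | h0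
    · rw [abs_of_nonneg h0] at hE
      exact ⟨-1, Or.inr rfl, by linarith⟩
    · rw [abs_of_neg h0] at hE
      exact ⟨1, Or.inl rfl, by linarith⟩
  refine ⟨mv a s l, mv_box H B hl2 hl hs (by linarith), ?_⟩
  have h1 := step_eq H B hl2 hl hs hsE
  -- split the potential
  have sp : ∀ f : ℕ → ℤ, ∑ m ∈ Ico 2 (h + 1), f m =
      ∑ m ∈ Ico 2 l, f m + f l + ∑ m ∈ Ico (l + 1) (h + 1), f m := by
    intro f
    rw [← sum_Ico_consecutive f (by omega : 2 ≤ l) (by omega : l ≤ h + 1),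
      sum_eq_sum_Ico_succ_bot (by omega : l < h + 1)]
    ring
  set f : ℕ → ℤ := fun m => 11 ^ m * |E h lam κ τ m (mv a s l)| with hf
  set g : ℕ → ℤ := fun m => 11 ^ m * |E h lam κ τ m a| with hg
  have e1 : Phi h lam κ τ (mv a s l) = ∑ m ∈ Ico 2 l, f m + f l +
    ∑ m ∈ Ico (l + 1) (h + 1), f m := sp f
  have e2 : Phi h lam κ τ a = ∑ m ∈ Ico 2 l, g m + g l +
    ∑ m ∈ Ico (l + 1) (h + 1), g m := sp g
  have k1 : 10 * ∑ m ∈ Ico 2 l, f m ≤ 10 * ∑ m ∈ Ico 2 l, g m +
      13 * n * ∑ m ∈ Ico 2 l, (11 : ℤ) ^ m := by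
    rw [mul_sum, mul_sum, mul_sum, ← sum_add_distrib]
    refine sum_le_sum fun m hm => ?_
    rw [mem_Ico] at hm
    have := step_lt H B hl2 hl hs hm.1 hm.2
    have := mul_le_mul_of_nonneg_left this (by positivity : (0 : ℤ) ≤ 11 ^ m)
    simp only [hf, hg]
    linarith
  have k2 : 10 * f l ≤ 10 * g l - 7 * n * 11 ^ l := by
    have := mul_le_mul_of_nonneg_left h1 (by positivity : (0 : ℤ) ≤ 11 ^ l)
    simp only [hf, hg]
    linarith
  have k3 : n * ∑ m ∈ Ico (l + 1) (h + 1), f m ≤ n * ∑ m ∈ Ico (l + 1) (h + 1), g m +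
      (20 * ∑ m ∈ Ico (l + 1) (h + 1), (11 ^ m * τ m) +
        n * Λ * ∑ m ∈ Ico (l + 1) (h + 1), (11 : ℤ) ^ m) := by
    rw [mul_sum, mul_sum, mul_sum, mul_sum, ← sum_add_distrib, ← sum_add_distrib]
    refine sum_le_sum fun m hm => ?_
    rw [mem_Ico] at hm
    have := step_gt H B hl2 hl hs (by omega : l < m) (by omega : m ≤ h)
    have := mul_le_mul_of_nonneg_left this (by positivity : (0 : ℤ) ≤ 11 ^ m)
    simp only [hf, hg]
    linarith
  have k4 : 89 * ∑ m ∈ Ico (l + 1) (h + 1), (11 ^ m * τ m) ≤ 11 ^ l * τ l := by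
    have := geo 89 (fun m => 11 ^ m * τ m) l (h - l) (fun m hm1 hm2 => by
      have h1 := H.ratio m (by omega) (by omega)
      have h2 := H.tau_pos (l := m + 1) (by omega) (by omega)
      have h3 : (0 : ℤ) < 11 ^ m := by positivity
      simp only [pow_succ]
      nlinarith)
    have e : l + (h - l) = h := by omega
    rw [e] at this
    have h2 := H.tau_pos (l := h) H.hh le_rfl
    have h3 : (0 : ℤ) < 11 ^ h := by positivity
    nlinarith
  have k5 := pow_sum 2 l
  have k6 := pow_sum (l + 1) (h + 1)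
  have k7 : τ l ≤ τ 2 := by
    obtain ⟨d, rfl⟩ := Nat.exists_eq_add_of_le hl2
    exact H.tau_anti le_rfl d hl
  have k8 := H.top
  have k9 := H.hW
  have k10 : (121 : ℤ) ≤ 11 ^ l := by
    calc (121 : ℤ) = 11 ^ 2 := by norm_num
      _ ≤ 11 ^ l := pow_le_pow_right₀ (by norm_num) hl2
  have hΛ0 := H.Λ0
  rw [e1, e2]
  by_contra hc
  push Not at hc
  set F1 := ∑ m ∈ Ico 2 l, f m
  set F3 := ∑ m ∈ Ico (l + 1) (h + 1), f m
  set G1 := ∑ m ∈ Ico 2 l, g m
  set G3 := ∑ m ∈ Ico (l + 1) (h + 1), g m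
  set P1 := ∑ m ∈ Ico 2 l, (11 : ℤ) ^ m
  set P3 := ∑ m ∈ Ico (l + 1) (h + 1), (11 : ℤ) ^ m
  set T3 := ∑ m ∈ Ico (l + 1) (h + 1), (11 ^ m * τ m)
  have q1 : n * (10 * F1) ≤ n * (10 * G1 + 13 * n * P1) :=
    mul_le_mul_of_nonneg_left k1 (by linarith)
  have q2 : n * (10 * f l) ≤ n * (10 * g l - 7 * n * 11 ^ l) :=
    mul_le_mul_of_nonneg_left k2 (by linarith)
  have q3 : n * (G1 + g l + G3) ≤ n * (F1 + f l + F3) := mul_le_mul_of_nonneg_left hc (by linarith)
  have q4 : n * n * (10 * P1) ≤ n * n * 11 ^ l := mul_le_mul_of_nonneg_left k5 (by positivity)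
  have q5 : n * Λ * (10 * P3) ≤ n * Λ * 11 ^ (h + 1) := mul_le_mul_of_nonneg_left k6 (by positivity)
  have q6 : n * (Λ * 11 ^ (h + 1)) ≤ n * n := mul_le_mul_of_nonneg_left k9 (by linarith)
  have q7 : (11 : ℤ) ^ l * (1000 * τ l) ≤ 11 ^ l * n ^ 2 :=
    mul_le_mul_of_nonneg_left (by linarith) (by positivity)
  have q8 : n * n * 121 ≤ n * n * 11 ^ l := mul_le_mul_of_nonneg_left k10 (by positivity)
  have q9 : 0 < n * n * 11 ^ l := by positivity
  nlinarith

theorem descent (H : Hyp h lam κ τ n Λ A₀ A₁) : ∀ (N : ℕ) (a : ℕ → ℤ), Box h τ n A₀ A₁ a →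
    Phi h lam κ τ a ≤ N → ∃ a', Box h τ n A₀ A₁ a' ∧
      ∀ l, 2 ≤ l → l ≤ h → |E h lam κ τ l a'| ≤ 2 * n := by
  intro N
  induction N with
  | zero =>
    intro a B hN
    refine ⟨a, B, fun l hl2 hl => ?_⟩
    have h1 : 11 ^ l * |E h lam κ τ l a| ≤ Phi h lam κ τ a :=
      single_le_sum (f := fun m => 11 ^ m * |E h lam κ τ m a|)
        (fun i _ => by positivity) (by rw [mem_Ico]; omega)
    have h2 : 0 < (11 : ℤ) ^ l := by positivity
    have h3 := abs_nonneg (E h lam κ τ l a)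
    have hn := H.hn
    push_cast at hN
    nlinarith
  | succ N ih =>
    intro a B hN
    by_cases hg : ∀ l, 2 ≤ l → l ≤ h → |E h lam κ τ l a| ≤ 2 * n
    · exact ⟨a, B, hg⟩
    · push Not at hg
      obtain ⟨l, hl2, hl, hE⟩ := hg
      obtain ⟨a', B', hlt⟩ := step H B hl2 hl hE
      refine ih a' B' ?_
      push_cast at hN ⊢
      omega

theorem numeric (H : Hyp h lam κ τ n Λ A₀ A₁) : ∃ a, Box h τ n A₀ A₁ a ∧
      ∀ l, 2 ≤ l → l ≤ h → |E h lam κ τ l a| ≤ 2 * n := by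
  have hn := H.hn
  have hh := H.hh
  set a : ℕ → ℤ := fun j => if j = 0 then A₀ else if j = 1 then A₁ else 0 with ha
  have hz : ∀ f : ℕ → ℤ, ∑ j ∈ Ico 2 (h + 1), f j * a j = 0 := by
    intro f
    refine sum_eq_zero fun j hj => ?_
    rw [mem_Ico] at hj
    simp only [ha]
    rw [if_neg (by omega), if_neg (by omega), mul_zero]
  have B : Box h τ n A₀ A₁ a := by
    refine ⟨fun j => ?_, fun j hj => ?_, fun j hj2 hj => ?_, ?_, ?_⟩
    · simp only [ha]
      have h1 := H.hA0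
      have h2 := H.hA1
      split
      · linarith
      · split
        · linarith
        · exact le_rfl
    · simp only [ha]
      rw [if_neg (by omega), if_neg (by omega)]
    · simp only [ha]
      rw [if_neg (by omega), if_neg (by omega)]
      have := H.tau_pos hj2 hj
      linarith
    · rw [split2 h hh]
      have := hz (fun _ => 1)
      simp only [one_mul] at this
      rw [this]
      simp [ha]
    · rw [split2 h hh, hz]
      simp [ha]
      ring
  have h0 : 0 ≤ Phi h lam κ τ a := sum_nonneg fun m _ => by positivity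
  obtain ⟨N, hN⟩ := Int.eq_ofNat_of_zero_le h0
  exact descent H N a B hN.le

end

end Pool.Agent.H37.WR
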