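import Mathlib

/-!
# Rooted joins of connected graphs

`Tr L T`: there is a finite connected graph with a root whose level polynomial is `L` and whose
distance polynomial (all ordered pairs of vertices) is `T`.
-/

namespace Pool.Agent.H37.WR

open Polynomial SimpleGraph

/-- A finite connected rooted graph with level polynomial `L` and ordered distance polynomial
`T`. -/
def Tr (L T : ℤ[X]) : Prop :=
  ∃ (V : Type) (_ : Fintype V) (G : SimpleGraph V) (r : V), G.Connected ∧
    ∑ v, (X : ℤ[X]) ^ (G.dist r v) = L ∧ ∑ u, ∑ v, (X : ℤ[X]) ^ (G.dist u v) = T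

theorem Tr.pt : Tr 1 1 := by
  refine ⟨Unit, inferInstance, ⊥, (), ?_, ?_, ?_⟩
  · exact ⟨fun u v => by cases u; cases v; exact Reachable.refl _⟩
  · simp
  · simp

/-- Lipschitz functions are bounded along walks. -/
theorem lip {V : Type} {G : SimpleGraph V} (D : V → ℕ) (hD : ∀ x y, G.Adj x y → D x ≤ D y + 1) :
    ∀ {x z : V} (p : G.Walk x z), D x ≤ D z + p.length := by
  intro x z p
  induction p with
  | nil => simp
  | cons h p ih =>
    rw [Walk.length_cons]
    have := hD _ _ h
    omega

/-- The join of two rooted graphs by an edge between the roots. -/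
def joinG {V W : Type} (G : SimpleGraph V) (H : SimpleGraph W) (r : V) (s : W) :
    SimpleGraph (V ⊕ W) where
  Adj
    | .inl a, .inl b => G.Adj a b
    | .inr a, .inr b => H.Adj a b
    | .inl a, .inr b => a = r ∧ b = s
    | .inr a, .inl b => b = r ∧ a = s
  symm := ⟨by
    rintro (a | a) (b | b) h
    · exact SimpleGraph.Adj.symm (G := G) h
    · exact h
    · exact h
    · exact SimpleGraph.Adj.symm (G := H) h⟩
  loopless := ⟨by
    rintro (a | a) h
    · exact G.loopless.irrefl a h
    · exact H.loopless.irrefl a h⟩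

section
variable {V W : Type} {G : SimpleGraph V} {H : SimpleGraph W} {r : V} {s : W}

def homL : G →g joinG G H r s := ⟨Sum.inl, fun h => h⟩
def homR : H →g joinG G H r s := ⟨Sum.inr, fun h => h⟩

theorem adj_rs : (joinG G H r s).Adj (Sum.inl r) (Sum.inr s) := ⟨rfl, rfl⟩

theorem joinG_connected (hG : G.Connected) (hH : H.Connected) : (joinG G H r s).Connected := by
  have : Nonempty (V ⊕ W) := ⟨Sum.inl r⟩
  have key : ∀ x, (joinG G H r s).Reachable (Sum.inl r) x := by
    rintro (a | b)
    · exact (hG.preconnected r a).map homL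
    · exact adj_rs.reachable.trans ((hH.preconnected s b).map homR)
  exact ⟨fun x y => (key x).symm.trans (key y)⟩

theorem dist_lt (hG : G.Connected) {x y : V} (h : G.Adj x y) (z : V) :
    G.dist x z ≤ G.dist y z + 1 := by
  have := hG.dist_triangle (u := x) (v := y) (w := z)
  have h1 : G.dist x y = 1 := dist_eq_one_iff_adj.2 h
  omega

theorem dist_ll (hG : G.Connected) (hH : H.Connected) (a b : V) :
    (joinG G H r s).dist (Sum.inl a) (Sum.inl b) = G.dist a b := by
  apply le_antisymm
  · obtain ⟨p, hp⟩ := hG.exists_walk_length_eq_dist a b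
    rw [← hp, ← Walk.length_map (homL (H := H) (r := r) (s := s)) p]
    exact dist_le _
  · obtain ⟨p, hp⟩ := (joinG_connected hG hH).exists_walk_length_eq_dist
      (Sum.inl a : V ⊕ W) (Sum.inl b) (G := joinG G H r s)
    rw [← hp]
    have := lip (G := joinG G H r s) (fun x => Sum.elim (fun a' => G.dist a' b)
      (fun _ => G.dist r b) x) ?_ p
    · simpa using this
    · rintro (x | x) (y | y) h
      · exact dist_lt hG h b
      · obtain ⟨rfl, rfl⟩ := h
        simp
      · obtain ⟨rfl, rfl⟩ := h
        simp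
      · simp

theorem dist_rr (hG : G.Connected) (hH : H.Connected) (a b : W) :
    (joinG G H r s).dist (Sum.inr a) (Sum.inr b) = H.dist a b := by
  apply le_antisymm
  · obtain ⟨p, hp⟩ := hH.exists_walk_length_eq_dist a b
    rw [← hp, ← Walk.length_map (homR (G := G) (r := r) (s := s)) p]
    exact dist_le _
  · obtain ⟨p, hp⟩ := (joinG_connected hG hH).exists_walk_length_eq_dist
      (Sum.inr a : V ⊕ W) (Sum.inr b) (G := joinG G H r s)
    rw [← hp]
    have := lip (G := joinG G H r s) (fun x => Sum.elim (fun _ => H.dist s b)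
      (fun a' => H.dist a' b) x) ?_ p
    · simpa using this
    · rintro (x | x) (y | y) h
      · simp
      · obtain ⟨rfl, rfl⟩ := h
        simp
      · obtain ⟨rfl, rfl⟩ := h
        simp
      · exact dist_lt hH h b

theorem dist_lr (hG : G.Connected) (hH : H.Connected) (a : V) (b : W) :
    (joinG G H r s).dist (Sum.inl a) (Sum.inr b) = G.dist r a + 1 + H.dist s b := by
  apply le_antisymm
  · have h1 := (joinG_connected hG hH (r := r) (s := s)).dist_triangle
      (u := (Sum.inl a : V ⊕ W)) (v := Sum.inl r) (w := Sum.inr b)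
    have h2 := (joinG_connected hG hH (r := r) (s := s)).dist_triangle
      (u := (Sum.inl r : V ⊕ W)) (v := Sum.inr s) (w := Sum.inr b)
    rw [dist_ll hG hH] at h1
    rw [dist_rr hG hH, dist_eq_one_iff_adj.2 (adj_rs (G := G) (H := H))] at h2
    rw [dist_comm (u := a)] at h1
    omega
  · obtain ⟨p, hp⟩ := (joinG_connected hG hH).exists_walk_length_eq_dist
      (Sum.inl a : V ⊕ W) (Sum.inr b) (G := joinG G H r s)
    rw [← hp]
    have := lip (G := joinG G H r s) (fun x => Sum.elim
      (fun a' => G.dist a' r + 1 + H.dist s b) (fun b' => H.dist b' b) x) ?_ p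
    · simp only [Sum.elim_inl, Sum.elim_inr, dist_self, zero_add] at this
      rw [dist_comm (u := r)]
      exact this
    · rintro (x | x) (y | y) h
      · have := dist_lt hG h r
        simp only [Sum.elim_inl]
        omega
      · obtain ⟨rfl, rfl⟩ := h
        simp
        omega
      · obtain ⟨rfl, rfl⟩ := h
        simp
        omega
      · exact dist_lt hH h b

end

theorem Tr.join {L₁ T₁ L₂ T₂ : ℤ[X]} (h₁ : Tr L₁ T₁) (h₂ : Tr L₂ T₂) :
    Tr (L₁ + X * L₂) (T₁ + T₂ + 2 * X * (L₁ * L₂)) := by
  obtain ⟨V, _, G, r, hG, hL, hT⟩ := h₁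
  obtain ⟨W, _, H, s, hH, hL', hT'⟩ := h₂
  refine ⟨V ⊕ W, inferInstance, joinG G H r s, Sum.inl r, joinG_connected hG hH, ?_, ?_⟩
  · rw [Fintype.sum_sum_type]
    simp only [dist_ll hG hH, dist_lr hG hH, dist_self, zero_add]
    rw [hL, ← hL', Finset.mul_sum]
    congr 1
    refine Finset.sum_congr rfl fun v _ => ?_
    rw [pow_add, pow_one]
  · rw [Fintype.sum_sum_type]
    simp only [Fintype.sum_sum_type]
    have e1 : ∀ (a : V) (b : W), (joinG G H r s).dist (Sum.inr b) (Sum.inl a) =
        G.dist r a + 1 + H.dist s b := fun a b => by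
      rw [dist_comm, dist_lr hG hH]
    simp only [dist_ll hG hH, dist_rr hG hH, dist_lr hG hH, e1]
    simp only [Finset.sum_add_distrib]
    rw [hT, hT']
    have e2 : ∑ x : V, ∑ y : W, (X : ℤ[X]) ^ (G.dist r x + 1 + H.dist s y) = X * (L₁ * L₂) := by
      rw [← hL, ← hL', Finset.sum_mul_sum, Finset.mul_sum]
      refine Finset.sum_congr rfl fun v _ => ?_
      rw [Finset.mul_sum]
      refine Finset.sum_congr rfl fun w _ => ?_
      ring
    have e3 : ∑ y : W, ∑ x : V, (X : ℤ[X]) ^ (G.dist r x + 1 + H.dist s y) = X * (L₁ * L₂) := by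
      rw [Finset.sum_comm, e2]
    rw [e2, e3]
    ring

/-- A connected rooted graph with `2 (n - 1)` ordered pairs of vertices at distance one is a
tree. -/
theorem Tr.tree {L T : ℤ[X]} (h : Tr L T) (hn : T.coeff 1 = 2 * (L.eval 1 - 1)) :
    ∃ (V : Type) (_ : Fintype V) (G : SimpleGraph V), G.IsTree ∧
      ∑ u, ∑ v, (X : ℤ[X]) ^ (G.dist u v) = T := by
  classical
  obtain ⟨V, _, G, r, hG, hL, hT⟩ := h
  refine ⟨V, inferInstance, G, ?_, hT⟩
  rw [isTree_iff_connected_and_card]
  refine ⟨hG, ?_⟩
  have h1 : L.eval 1 = (Fintype.card V : ℤ) := by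
    rw [← hL, eval_finsetSum]
    simp
  have h2 : T.coeff 1 = ∑ u, (G.degree u : ℤ) := by
    rw [← hT, finsetSum_coeff]
    refine Finset.sum_congr rfl fun u _ => ?_
    rw [finsetSum_coeff]
    simp only [coeff_X_pow]
    rw [← G.card_neighborFinset_eq_degree, Finset.card_eq_sum_ones, Nat.cast_sum,
      Finset.sum_ite, Finset.sum_const_zero, add_zero]
    push_cast
    refine Finset.sum_congr ?_ fun _ _ => rfl
    ext v
    simp only [Finset.mem_filter, Finset.mem_univ, true_and, mem_neighborFinset]
    rw [eq_comm, dist_eq_one_iff_adj]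
  have h3 := G.sum_degrees_eq_twice_card_edges
  have h4 : (∑ u, (G.degree u : ℤ)) = 2 * (G.edgeFinset.card : ℤ) := by
    exact_mod_cast h3
  rw [Nat.card_eq_fintype_card, Nat.card_eq_fintype_card, ← edgeFinset_card]
  have h5 : (2 : ℤ) * (G.edgeFinset.card : ℤ) = 2 * ((Fintype.card V : ℤ) - 1) := by
    rw [← h4, ← h2, hn, h1]
  omega

end Pool.Agent.H37.WR
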